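import Mathlib

/-!
# Rigid local algebras, three variables: the numerical lemma (helper12)
-/

set_option autoImplicit false

namespace Pool.Agent.H12.Rig

open Finset

/-- second differences -/
def dd (h : ℕ → ℤ) (i : ℕ) : ℤ := h (i + 2) - 2 * h (i + 1) + h i

/-- reconstruction from the second differences -/
theorem dd_sum (h : ℕ → ℤ) (s : ℕ) (hs : ∀ k, s < k → h k = 0) (j : ℕ) :
    h j = ∑ i ∈ range (s + 1), (if j ≤ i then ((i : ℤ) - j + 1) * dd h i else 0) := by
  -- partial sums
  have key : ∀ n : ℕ, ∑ i ∈ range n, (if j ≤ i then ((i : ℤ) - j + 1) * dd h i else 0) =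
      if j ≤ n then h j + ((n : ℤ) - j) * h (n + 1) - ((n : ℤ) - j + 1) * h n else 0 := by
    intro n
    induction n with
    | zero =>
      rw [sum_range_zero]
      by_cases hj : j ≤ 0
      · have : j = 0 := by omega
        subst this
        simp
      · rw [if_neg hj]
    | succ n ih =>
      rw [sum_range_succ, ih]
      by_cases hj : j ≤ n
      · rw [if_pos hj, if_pos hj, if_pos (by omega)]
        unfold dd
        push_cast
        ring
      · rw [if_neg hj, if_neg hj]
        by_cases hj2 : j ≤ n + 1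
        · have : j = n + 1 := by omega
          subst this
          rw [if_pos le_rfl]
          push_cast
          ring
        · rw [if_neg hj2]
          ring
  by_cases hj : j ≤ s + 1
  · rw [key (s + 1), if_pos hj, hs (s + 1) (by omega), hs (s + 1 + 1) (by omega)]
    ring
  · rw [key (s + 1), if_neg hj]
    exact hs j (by omega)

/-- the sum of the second differences -/
theorem dd_sum_one (h : ℕ → ℤ) (s : ℕ) (hs : ∀ k, s < k → h k = 0) :
    ∑ i ∈ range (s + 1), dd h i = h 0 - h 1 := by
  have h0 := dd_sum h s hs 0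
  have h1 := dd_sum h s hs 1
  rw [h0, h1, ← sum_sub_distrib]
  refine sum_congr rfl fun i _ => ?_
  rw [if_pos (Nat.zero_le i)]
  by_cases hi : 1 ≤ i
  · rw [if_pos hi]
    push_cast
    ring
  · have : i = 0 := by omega
    subst this
    simp

/-- the sum of the squares of the second differences -/
theorem dd_sq (h : ℕ → ℤ) (s : ℕ) (hs : ∀ k, s < k → h k = 0) :
    ∑ i ∈ range (s + 1), dd h i ^ 2 =
      6 * ∑ k ∈ range (s + 1), h k * h k - 8 * ∑ k ∈ range (s + 1), h k * h (k + 1) +
        2 * ∑ k ∈ range (s + 1), h k * h (k + 2) - (h 1 - 2 * h 0) ^ 2 - h 0 ^ 2 := by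
  have key : ∀ n : ℕ, ∑ i ∈ range n, dd h i ^ 2 =
      6 * ∑ k ∈ range n, h k * h k - 8 * ∑ k ∈ range n, h k * h (k + 1) +
        2 * ∑ k ∈ range n, h k * h (k + 2) - (h 1 - 2 * h 0) ^ 2 - h 0 ^ 2 +
        (h (n + 1) - 2 * h n) ^ 2 + h n ^ 2 := by
    intro n
    induction n with
    | zero =>
      simp only [sum_range_zero]
      ring_nf
    | succ n ih =>
      rw [sum_range_succ, sum_range_succ, sum_range_succ, sum_range_succ, ih]
      unfold dd
      ring
  rw [key, hs (s + 1) (by omega), hs (s + 1 + 1) (by omega)]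
  ring

theorem num_main (h : ℕ → ℕ) (s : ℕ) (hs : ∀ k, s < k → h k = 0) (h0 : h 0 = 1) (h1 : h 1 = 3)
    (hineq : 3 * ∑ k ∈ range (s + 1), h k * h k + ∑ k ∈ range (s + 1), h k * h (k + 2) ≤
      3 + 4 * ∑ k ∈ range (s + 1), h k * h (k + 1)) :
    ∃ t : ℕ, h t = 1 ∧ (∀ k, t < k → h k = 0) ∧ ∀ j, j ≤ t → h j + j ≤ t + 1 := by
  obtain ⟨g, hg⟩ : ∃ g : ℕ → ℤ, ∀ k, g k = h k := ⟨fun k => h k, fun _ => rfl⟩
  have hgs : ∀ k, s < k → g k = 0 := by
    intro k hk
    rw [hg, hs k hk]
    rfl
  have hineq' : 3 * ∑ k ∈ range (s + 1), g k * g k + ∑ k ∈ range (s + 1), g k * g (k + 2) ≤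
      3 + 4 * ∑ k ∈ range (s + 1), g k * g (k + 1) := by
    simp only [hg]
    exact_mod_cast hineq
  obtain ⟨w, hw⟩ : ∃ w : ℕ → ℤ, ∀ i, w i = dd g i := ⟨fun i => dd g i, fun _ => rfl⟩
  have hsq : ∑ i ∈ range (s + 1), w i ^ 2 ≤ 4 := by
    have := dd_sq g s hgs
    simp only [hw]
    rw [this, hg 0, hg 1, h0, h1]
    push_cast
    linarith
  have hsum : ∑ i ∈ range (s + 1), w i = -2 := by
    have := dd_sum_one g s hgs
    simp only [hw]
    rw [this, hg 0, hg 1, h0, h1]
    norm_num
  have hrec : ∀ j, g j = ∑ i ∈ range (s + 1), (if j ≤ i then ((i : ℤ) - j + 1) * w i else 0) := by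
    intro j
    simp only [hw]
    exact dd_sum g s hgs j
  -- positive parts
  have hpos : ∑ i ∈ range (s + 1), max (w i) 0 ≤ 1 := by
    have e1 : ∀ i, 2 * max (w i) 0 ≤ w i ^ 2 + w i := by
      intro i
      rcases le_total (w i) 0 with hi | hi
      · rw [max_eq_right hi]
        rcases eq_or_lt_of_le hi with hi | hi
        · rw [hi]
          norm_num
        · nlinarith
      · rw [max_eq_left hi]
        rcases eq_or_lt_of_le hi with hi | hi
        · rw [← hi]
          norm_num
        · nlinarith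
    have e2 : ∑ i ∈ range (s + 1), 2 * max (w i) 0 ≤
        ∑ i ∈ range (s + 1), (w i ^ 2 + w i) := sum_le_sum fun i _ => e1 i
    rw [← mul_sum, sum_add_distrib, hsum] at e2
    omega
  -- some positive entry
  obtain ⟨t, ht, htpos⟩ : ∃ t ∈ range (s + 1), 0 < w t := by
    by_contra hcon
    push Not at hcon
    have e1 := hrec 0
    have e2 : ∑ i ∈ range (s + 1), (if 0 ≤ i then ((i : ℤ) - (0 : ℕ) + 1) * w i else 0) ≤ 0 := by
      refine sum_nonpos fun i hi => ?_
      rw [if_pos (Nat.zero_le i)]
      have := hcon i hi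
      have h3 : (0 : ℤ) ≤ (i : ℤ) - (0 : ℕ) + 1 := by
        push_cast
        omega
      exact mul_nonpos_of_nonneg_of_nonpos h3 this
    rw [hg 0, h0] at e1
    push_cast at e1 e2
    linarith
  have hwt : w t = 1 := by
    have e1 : max (w t) 0 ≤ ∑ i ∈ range (s + 1), max (w i) 0 :=
      single_le_sum (f := fun i => max (w i) 0) (fun i _ => le_max_right _ _) ht
    rw [max_eq_left htpos.le] at e1
    omega
  have hother : ∀ i ∈ range (s + 1), i ≠ t → w i ≤ 0 := by
    intro i hi hit
    by_contra hcon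
    push Not at hcon
    have e1 : ∑ j ∈ ({i, t} : Finset ℕ), max (w j) 0 ≤ ∑ j ∈ range (s + 1), max (w j) 0 := by
      refine sum_le_sum_of_subset_of_nonneg ?_ fun j _ _ => le_max_right _ _
      intro j hj
      simp only [mem_insert, mem_singleton] at hj
      rcases hj with rfl | rfl
      · exact hi
      · exact ht
    rw [sum_pair hit, max_eq_left hcon.le, max_eq_left htpos.le, hwt] at e1
    omega
  -- bounds for `g`
  have hle : ∀ j, j ≤ t → g j ≤ (t : ℤ) - j + 1 := by
    intro j hj
    rw [hrec j, ← add_sum_erase _ _ ht, if_pos hj, hwt]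
    have e1 : ∑ i ∈ (range (s + 1)).erase t, (if j ≤ i then ((i : ℤ) - j + 1) * w i else 0) ≤ 0 := by
      refine sum_nonpos fun i hi => ?_
      rw [mem_erase] at hi
      by_cases hji : j ≤ i
      · rw [if_pos hji]
        exact mul_nonpos_of_nonneg_of_nonpos (by omega) (hother i hi.2 hi.1)
      · rw [if_neg hji]
    linarith
  have hzero : ∀ k, t < k → g k = 0 := by
    intro k hk
    have e1 : g k ≤ 0 := by
      rw [hrec k]
      refine sum_nonpos fun i hi => ?_
      by_cases hki : k ≤ i
      · rw [if_pos hki]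
        exact mul_nonpos_of_nonneg_of_nonpos (by omega) (hother i hi (by omega))
      · rw [if_neg hki]
    have e2 : 0 ≤ g k := by
      rw [hg]
      positivity
    omega
  have hone : g t = 1 := by
    have e0 : g t ≤ 1 := by
      have := hle t le_rfl
      omega
    have e1 : w t = g (t + 2) - 2 * g (t + 1) + g t := by
      rw [hw]
      rfl
    rw [hzero (t + 2) (by omega), hzero (t + 1) (by omega), hwt] at e1
    omega
  refine ⟨t, ?_, ?_, ?_⟩
  · have := hone
    rw [hg] at this
    exact_mod_cast this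
  · intro k hk
    have := hzero k hk
    rw [hg] at this
    exact_mod_cast this
  · intro j hj
    have := hle j hj
    rw [hg] at this
    omega

end Pool.Agent.H12.Rig
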