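import Mathlib

/-!
# Rigid local algebras, three variables: linear algebra (helper12)

The Koszul complex of three commuting operators acting on the endomorphisms of a graded vector
space.
-/

set_option autoImplicit false

namespace Pool.Agent.H12.Rig

open Module

variable {K : Type*} [Field K]

/-- dimension of a product over the natural numbers with finitely many nontrivial factors -/
theorem finrank_pi_nat (W : ℕ → Type*) [∀ k, AddCommGroup (W k)] [∀ k, Module K (W k)]
    [∀ k, FiniteDimensional K (W k)] (s : ℕ) (hs : ∀ k, s < k → Subsingleton (W k)) :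
    FiniteDimensional K (∀ k, W k) ∧
      finrank K (∀ k, W k) = ∑ k ∈ Finset.range (s + 1), finrank K (W k) := by
  let r : (∀ k, W k) →ₗ[K] (∀ k : Fin (s + 1), W k) :=
    LinearMap.pi fun k => LinearMap.proj (k : ℕ)
  have hr : Function.Bijective r := by
    constructor
    · intro f g hfg
      funext k
      by_cases hk : k ≤ s
      · have := congrFun hfg ⟨k, by omega⟩
        exact this
      · have := hs k (by omega)
        exact Subsingleton.elim _ _
    · intro g
      refine ⟨fun k => if h : k < s + 1 then g ⟨k, h⟩ else 0, ?_⟩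
      funext k
      show (if h : (k : ℕ) < s + 1 then g ⟨k, h⟩ else 0) = g k
      rw [dif_pos k.2]
  let e := LinearEquiv.ofBijective r hr
  have : FiniteDimensional K (∀ k, W k) := Module.Finite.equiv e.symm
  refine ⟨this, ?_⟩
  rw [e.finrank_eq, Module.finrank_pi_fintype, Finset.sum_range]

variable (V : ℕ → Type*) [∀ k, AddCommGroup (V k)] [∀ k, Module K (V k)]

/-- endomorphisms of degree `0` -/
abbrev E0 (K : Type*) [Field K] (V : ℕ → Type*) [∀ k, AddCommGroup (V k)]
    [∀ k, Module K (V k)] := ∀ k, V k →ₗ[K] V k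

/-- endomorphisms of degree `1` -/
abbrev E1 (K : Type*) [Field K] (V : ℕ → Type*) [∀ k, AddCommGroup (V k)]
    [∀ k, Module K (V k)] := ∀ k, V k →ₗ[K] V (k + 1)

/-- endomorphisms of degree `2` -/
abbrev E2 (K : Type*) [Field K] (V : ℕ → Type*) [∀ k, AddCommGroup (V k)]
    [∀ k, Module K (V k)] := ∀ k, V k →ₗ[K] V (k + 1 + 1)

/-- endomorphisms of degree `-1` -/
abbrev Em (K : Type*) [Field K] (V : ℕ → Type*) [∀ k, AddCommGroup (V k)]
    [∀ k, Module K (V k)] := ∀ k, V (k + 1) →ₗ[K] V k

variable {V}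

/-- commutator of `x` with an endomorphism of degree `0` -/
def br0 (x : E1 K V) : E0 K V →ₗ[K] E1 K V where
  toFun D := fun k => x k ∘ₗ D k - D (k + 1) ∘ₗ x k
  map_add' D D' := by
    funext k
    ext v
    simp
    abel
  map_smul' c D := by
    funext k
    ext v
    simp [smul_sub]

/-- commutator of `x` with an endomorphism of degree `1` -/
def br1 (x : E1 K V) : E1 K V →ₗ[K] E2 K V where
  toFun D := fun k => x (k + 1) ∘ₗ D k - D (k + 1) ∘ₗ x k
  map_add' D D' := by
    funext k
    ext v
    simp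
    abel
  map_smul' c D := by
    funext k
    ext v
    simp [smul_sub]

theorem br0_apply (x : E1 K V) (D : E0 K V) (k : ℕ) (v : V k) :
    br0 x D k v = x k (D k v) - D (k + 1) (x k v) := rfl

theorem br1_apply (x : E1 K V) (D : E1 K V) (k : ℕ) (v : V k) :
    br1 x D k v = x (k + 1) (D k v) - D (k + 1) (x k v) := rfl

/-- first differential -/
def d1 (x : Fin 3 → E1 K V) : (Fin 3 → E0 K V) →ₗ[K] (Fin 3 → E1 K V) :=
  LinearMap.pi fun c => br0 (x (c + 1)) ∘ₗ LinearMap.proj (c + 2) -
    br0 (x (c + 2)) ∘ₗ LinearMap.proj (c + 1)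

/-- second differential -/
def d2 (x : Fin 3 → E1 K V) : (Fin 3 → E1 K V) →ₗ[K] E2 K V :=
  ∑ c, br1 (x c) ∘ₗ LinearMap.proj c

theorem d2_apply (x : Fin 3 → E1 K V) (G : Fin 3 → E1 K V) (k : ℕ) (v : V k) :
    d2 x G k v = ∑ c, (x c (k + 1) (G c k v) - G c (k + 1) (x c k v)) := by
  simp [d2, br1_apply, LinearMap.sum_apply, Finset.sum_apply]

theorem d2_d1 (x : Fin 3 → E1 K V)
    (hx : ∀ a b k (v : V k), x a (k + 1) (x b k v) = x b (k + 1) (x a k v))
    (D : Fin 3 → E0 K V) : d2 x (d1 x D) = 0 := by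
  funext k
  ext v
  rw [d2_apply]
  simp only [d1, LinearMap.pi_apply, LinearMap.sub_apply, LinearMap.comp_apply,
    LinearMap.proj_apply, Pi.sub_apply, br0_apply, map_sub, Fin.sum_univ_three]
  have e1 : (0 : Fin 3) + 1 = 1 := rfl
  have e2 : (0 : Fin 3) + 2 = 2 := rfl
  have e3 : (1 : Fin 3) + 1 = 2 := rfl
  have e4 : (1 : Fin 3) + 2 = 0 := rfl
  have e5 : (2 : Fin 3) + 1 = 0 := rfl
  have e6 : (2 : Fin 3) + 2 = 1 := rfl
  rw [e1, e2, e3, e4, e5, e6]
  rw [hx 0 1 k (D 2 k v), hx 0 2 k (D 1 k v), hx 1 2 k (D 0 k v), hx 0 1 k v, hx 0 2 k v,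
    hx 1 2 k v]
  simp only [LinearMap.zero_apply, Pi.zero_apply]
  abel

/-- surjectivity of the second differential -/
theorem d2_surj (x : Fin 3 → E1 K V) (s : ℕ) (hs : ∀ k, s < k → Subsingleton (V k))
    (hsurj : ∀ k (w : V (k + 1)), ∃ v : Fin 3 → V k, w = ∑ c, x c k (v c)) :
    LinearMap.range (d2 x) = ⊤ := by
  rw [LinearMap.range_eq_top]
  intro T
  -- descending induction
  have key : ∀ n : ℕ, n ≤ s + 1 → ∃ G : Fin 3 → E1 K V, ∀ k, s + 1 - n ≤ k →
      ∀ v : V k, d2 x G k v = T k v := by
    intro n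
    induction n with
    | zero =>
      intro _
      refine ⟨0, fun k hk v => ?_⟩
      have := hs (k + 1 + 1) (by omega)
      exact Subsingleton.elim _ _
    | succ n ih =>
      intro hn
      obtain ⟨G, hG⟩ := ih (by omega)
      obtain ⟨m, hm⟩ : ∃ m, m = s + 1 - (n + 1) := ⟨_, rfl⟩
      -- the linear map `w ↦ ∑ x_c w_c`
      let X : (Fin 3 → V (m + 1)) →ₗ[K] V (m + 1 + 1) := ∑ c, x c (m + 1) ∘ₗ LinearMap.proj c
      have hX : ∀ w, X w = ∑ c, x c (m + 1) (w c) := by
        intro w
        simp [X, LinearMap.sum_apply]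
      have hXs : LinearMap.range X = ⊤ := by
        rw [LinearMap.range_eq_top]
        intro w
        obtain ⟨v, hv⟩ := hsurj (m + 1) w
        exact ⟨v, by rw [hX]; exact hv.symm⟩
      obtain ⟨R, hR⟩ := X.exists_rightInverse_of_surjective hXs
      have hR' : ∀ w, X (R w) = w := fun w => LinearMap.congr_fun hR w
      let B : V m →ₗ[K] V (m + 1 + 1) := T m + ∑ c, G c (m + 1) ∘ₗ x c m
      have hB : ∀ v, B v = T m v + ∑ c, G c (m + 1) (x c m v) := by
        intro v
        simp [B, LinearMap.sum_apply]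
      refine ⟨fun c => Function.update (G c) m (LinearMap.proj c ∘ₗ R ∘ₗ B), ?_⟩
      intro k hk v
      rw [d2_apply]
      by_cases hkm : k = m
      · subst hkm
        have h1 : ∀ c, Function.update (G c) k (LinearMap.proj c ∘ₗ R ∘ₗ B) k v = R (B v) c := by
          intro c
          rw [Function.update_self]
          rfl
        have h2 : ∀ c, Function.update (G c) k (LinearMap.proj c ∘ₗ R ∘ₗ B) (k + 1) =
            G c (k + 1) := by
          intro c
          rw [Function.update_of_ne (by omega)]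
        simp only [h1, h2, Finset.sum_sub_distrib]
        rw [← hX, hR', hB]
        abel
      · have h1 : ∀ c, Function.update (G c) m (LinearMap.proj c ∘ₗ R ∘ₗ B) k = G c k := by
          intro c
          rw [Function.update_of_ne hkm]
        have h2 : ∀ c, Function.update (G c) m (LinearMap.proj c ∘ₗ R ∘ₗ B) (k + 1) =
            G c (k + 1) := by
          intro c
          rw [Function.update_of_ne (by omega)]
        simp only [h1, h2]
        have h3 := hG k (by omega) v
        rw [d2_apply] at h3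
        exact h3
  obtain ⟨G, hG⟩ := key (s + 1) le_rfl
  refine ⟨G, ?_⟩
  funext k
  ext v
  exact hG k (by omega) v

/-- the dimension inequality -/
theorem ker_d1_ge [∀ k, FiniteDimensional K (V k)] (x : Fin 3 → E1 K V) (s : ℕ)
    (hs : ∀ k, s < k → Subsingleton (V k))
    (hx : ∀ a b k (v : V k), x a (k + 1) (x b k v) = x b (k + 1) (x a k v))
    (hsurj : ∀ k (w : V (k + 1)), ∃ v : Fin 3 → V k, w = ∑ c, x c k (v c)) :
    3 * ∑ k ∈ Finset.range (s + 1), finrank K (V k) * finrank K (V k) +
      ∑ k ∈ Finset.range (s + 1), finrank K (V k) * finrank K (V (k + 2)) ≤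
    finrank K (LinearMap.ker (d1 x)) +
      3 * ∑ k ∈ Finset.range (s + 1), finrank K (V k) * finrank K (V (k + 1)) := by
  have hE0 := finrank_pi_nat (K := K) (fun k => V k →ₗ[K] V k) s (fun k hk => by
    have := hs k hk
    infer_instance)
  have hE1 := finrank_pi_nat (K := K) (fun k => V k →ₗ[K] V (k + 1)) s (fun k hk => by
    have := hs k hk
    infer_instance)
  have hE2 := finrank_pi_nat (K := K) (fun k => V k →ₗ[K] V (k + 1 + 1)) s (fun k hk => by
    have := hs k hk
    infer_instance)
  have := hE0.1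
  have := hE1.1
  have := hE2.1
  have h0 : finrank K (Fin 3 → E0 K V) =
      3 * ∑ k ∈ Finset.range (s + 1), finrank K (V k) * finrank K (V k) := by
    rw [Module.finrank_pi_fintype]
    simp only [Finset.sum_const, Finset.card_univ, Fintype.card_fin, smul_eq_mul]
    rw [hE0.2]
    simp only [Module.finrank_linearMap]
  have h1 : finrank K (Fin 3 → E1 K V) =
      3 * ∑ k ∈ Finset.range (s + 1), finrank K (V k) * finrank K (V (k + 1)) := by
    rw [Module.finrank_pi_fintype]
    simp only [Finset.sum_const, Finset.card_univ, Fintype.card_fin, smul_eq_mul]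
    rw [hE1.2]
    simp only [Module.finrank_linearMap]
  have h2 : finrank K (E2 K V) =
      ∑ k ∈ Finset.range (s + 1), finrank K (V k) * finrank K (V (k + 2)) := by
    rw [hE2.2]
    simp only [Module.finrank_linearMap]
  have r1 := LinearMap.finrank_range_add_finrank_ker (d1 x)
  have r2 := LinearMap.finrank_range_add_finrank_ker (d2 x)
  have hle : LinearMap.range (d1 x) ≤ LinearMap.ker (d2 x) := by
    rintro _ ⟨D, rfl⟩
    exact d2_d1 x hx D
  have h3 := Submodule.finrank_mono hle
  rw [d2_surj x s hs hsurj, finrank_top] at r2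
  rw [← h0, ← h1, ← h2]
  omega

end Pool.Agent.H12.Rig
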