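import Mathlib
import Pool.Agent.H12.Rig.Lin

/-!
# Rigid local algebras: graded pieces of a quotient of a polynomial ring (helper12)
-/

set_option autoImplicit false

namespace Pool.Agent.H12.Rig

open Module MvPolynomial

variable {K : Type*} [Field K] {n : ℕ}

/-- forms of degree `k` -/
noncomputable abbrev S (K : Type*) [Field K] (n k : ℕ) : Submodule K (MvPolynomial (Fin n) K) :=
  homogeneousSubmodule (Fin n) K k

theorem S_eq (k : ℕ) : S K n k = homogeneousSubmodule (Fin n) K k := rfl

/-- the part of degree `k` of the ideal, inside the forms of degree `k` -/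
noncomputable def Ik (I : Ideal (MvPolynomial (Fin n) K)) (k : ℕ) : Submodule K (S K n k) :=
  (I.restrictScalars K).comap (S K n k).subtype

theorem mem_Ik {I : Ideal (MvPolynomial (Fin n) K)} {k : ℕ} {f : S K n k} :
    f ∈ Ik I k ↔ (f : MvPolynomial (Fin n) K) ∈ I := Iff.rfl

/-- graded pieces of the quotient -/
abbrev V (I : Ideal (MvPolynomial (Fin n) K)) (k : ℕ) : Type _ := S K n k ⧸ Ik I k

instance (k : ℕ) : FiniteDimensional K (S K n k) :=
  Module.Finite.iff_fg.2 (homogeneousSubmodule_fg (Fin n) K k)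

/-- multiplication by a variable -/
noncomputable def mulX (a : Fin n) (k : ℕ) : S K n k →ₗ[K] S K n (k + 1) where
  toFun f := ⟨X a * (f : MvPolynomial (Fin n) K), by
    have h := (isHomogeneous_X K a).mul ((mem_homogeneousSubmodule k _).1 f.2)
    rw [mem_homogeneousSubmodule]
    rwa [add_comm 1 k] at h⟩
  map_add' f g := by
    ext1
    show X a * ((f : MvPolynomial (Fin n) K) + (g : MvPolynomial (Fin n) K)) =
      X a * (f : MvPolynomial (Fin n) K) + X a * (g : MvPolynomial (Fin n) K)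
    ring
  map_smul' c f := by
    ext1
    show X a * (c • (f : MvPolynomial (Fin n) K)) = c • (X a * (f : MvPolynomial (Fin n) K))
    rw [mul_smul_comm]

theorem mulX_coe (a : Fin n) (k : ℕ) (f : S K n k) :
    (mulX a k f : MvPolynomial (Fin n) K) = X a * (f : MvPolynomial (Fin n) K) := rfl

/-- multiplication by a variable on the graded pieces -/
noncomputable def xx (I : Ideal (MvPolynomial (Fin n) K)) (a : Fin n) : E1 K (V I) := fun k =>
  Submodule.mapQ (Ik I k) (Ik I (k + 1)) (mulX a k) fun f hf => by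
    rw [Submodule.mem_comap, mem_Ik, mulX_coe]
    exact I.mul_mem_left _ (mem_Ik.1 hf)

theorem xx_mk (I : Ideal (MvPolynomial (Fin n) K)) (a : Fin n) (k : ℕ) (f : S K n k) :
    xx I a k ((Ik I k).mkQ f) = (Ik I (k + 1)).mkQ (mulX a k f) := rfl

theorem xx_comm (I : Ideal (MvPolynomial (Fin n) K)) (a b : Fin n) (k : ℕ) (v : V I k) :
    xx I a (k + 1) (xx I b k v) = xx I b (k + 1) (xx I a k v) := by
  obtain ⟨f, rfl⟩ := (Ik I k).mkQ_surjective v
  rw [xx_mk, xx_mk, xx_mk, xx_mk]
  have h : mulX a (k + 1) (mulX b k f) = mulX b (k + 1) (mulX a k f) := by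
    ext1
    rw [mulX_coe, mulX_coe, mulX_coe, mulX_coe]
    ring
  rw [h]

/-- forms of positive degree are combinations of variables -/
theorem exists_sum_X (k : ℕ) (f : S K n (k + 1)) :
    ∃ v : Fin n → S K n k, f = ∑ a, mulX a k (v a) := by
  have h1 : S K n (k + 1) = S K n 1 * S K n k := by
    have e1 := homogeneousSubmodule_one_pow (σ := Fin n) (R := K) (k + 1)
    have e2 := homogeneousSubmodule_one_pow (σ := Fin n) (R := K) k
    rw [S_eq, S_eq, S_eq, ← e1, pow_succ', e2]
  have h2 : ∀ g ∈ S K n 1 * S K n k, ∃ v : Fin n → S K n k,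
      g = ∑ a, X a * (v a : MvPolynomial (Fin n) K) := by
    intro g hg
    refine Submodule.mul_induction_on hg ?_ ?_
    · intro p hp q hq
      rw [S_eq, homogeneousSubmodule_one_eq_span_X, Submodule.mem_span_range_iff_exists_fun] at hp
      obtain ⟨c, rfl⟩ := hp
      refine ⟨fun a => c a • ⟨q, hq⟩, ?_⟩
      rw [Finset.sum_mul]
      refine Finset.sum_congr rfl fun a _ => ?_
      show c a • X a * q = X a * (c a • q)
      rw [mul_smul_comm, smul_mul_assoc]
    · rintro p q ⟨v, rfl⟩ ⟨w, rfl⟩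
      refine ⟨v + w, ?_⟩
      rw [← Finset.sum_add_distrib]
      refine Finset.sum_congr rfl fun a _ => ?_
      show _ = X a * ((v a : MvPolynomial (Fin n) K) + (w a : MvPolynomial (Fin n) K))
      ring
  obtain ⟨v, hv⟩ := h2 f (by rw [← h1]; exact f.2)
  refine ⟨v, ?_⟩
  ext1
  rw [hv, AddSubmonoidClass.coe_finsetSum]
  refine Finset.sum_congr rfl fun a _ => ?_
  rw [mulX_coe]

theorem xx_surj (I : Ideal (MvPolynomial (Fin n) K)) (k : ℕ) (w : V I (k + 1)) :
    ∃ v : Fin n → V I k, w = ∑ c, xx I c k (v c) := by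
  obtain ⟨f, rfl⟩ := (Ik I (k + 1)).mkQ_surjective w
  obtain ⟨v, rfl⟩ := exists_sum_X k f
  refine ⟨fun a => (Ik I k).mkQ (v a), ?_⟩
  rw [map_sum]
  rfl

/-- the inclusion of a graded piece into the quotient ring -/
noncomputable def io (I : Ideal (MvPolynomial (Fin n) K)) (k : ℕ) : V I k →ₗ[K] MvPolynomial (Fin n) K ⧸ I :=
  Submodule.liftQ (Ik I k) ((Ideal.Quotient.mkₐ K I).toLinearMap ∘ₗ (S K n k).subtype)
    fun f hf => by
      rw [LinearMap.mem_ker]
      exact Ideal.Quotient.eq_zero_iff_mem.2 hf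

theorem io_mk (I : Ideal (MvPolynomial (Fin n) K)) (k : ℕ) (f : S K n k) :
    io I k ((Ik I k).mkQ f) = Ideal.Quotient.mk I f := rfl

theorem io_inj (I : Ideal (MvPolynomial (Fin n) K)) (k : ℕ) : Function.Injective (io I k) := by
  rw [← LinearMap.ker_eq_bot, LinearMap.ker_eq_bot']
  intro v hv
  obtain ⟨f, rfl⟩ := (Ik I k).mkQ_surjective v
  rw [io_mk, Ideal.Quotient.eq_zero_iff_mem] at hv
  rw [Submodule.mkQ_apply, Submodule.Quotient.mk_eq_zero]
  exact hv

theorem io_xx (I : Ideal (MvPolynomial (Fin n) K)) (a : Fin n) (k : ℕ) (v : V I k) :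
    io I (k + 1) (xx I a k v) = Ideal.Quotient.mk I (X a) * io I k v := by
  obtain ⟨f, rfl⟩ := (Ik I k).mkQ_surjective v
  rw [xx_mk, io_mk, io_mk, mulX_coe, map_mul]

/-- projection of a polynomial to a graded piece -/
noncomputable def pr (I : Ideal (MvPolynomial (Fin n) K)) (k : ℕ) : MvPolynomial (Fin n) K →ₗ[K] V I k :=
  (Ik I k).mkQ ∘ₗ LinearMap.codRestrict (S K n k) (homogeneousComponent k)
    fun f => homogeneousComponent_mem k f

theorem pr_apply (I : Ideal (MvPolynomial (Fin n) K)) (k : ℕ) (f : MvPolynomial (Fin n) K) :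
    pr I k f = (Ik I k).mkQ ⟨homogeneousComponent k f, homogeneousComponent_mem k f⟩ := rfl

theorem pr_self (I : Ideal (MvPolynomial (Fin n) K)) (k : ℕ) (f : S K n k) :
    pr I k f = (Ik I k).mkQ f := by
  rw [pr_apply]
  congr 1
  ext1
  exact homogeneousComponent_eq_self f.2

theorem pr_ne (I : Ideal (MvPolynomial (Fin n) K)) {j k : ℕ} (hjk : j ≠ k) (f : S K n k) :
    pr I j (f : MvPolynomial (Fin n) K) = 0 := by
  rw [pr_apply]
  have h : homogeneousComponent j (f : MvPolynomial (Fin n) K) = 0 := by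
    rw [homogeneousComponent_of_mem f.2, if_neg hjk]
  have h2 : (⟨homogeneousComponent j (f : MvPolynomial (Fin n) K),
      homogeneousComponent_mem j _⟩ : S K n j) = 0 := by
    ext1
    exact h
  rw [h2, map_zero]

theorem pr_mem (I : Ideal (MvPolynomial (Fin n) K))
    (hI : ∀ k, ∀ f ∈ I, homogeneousComponent k f ∈ I) (k : ℕ) {f : MvPolynomial (Fin n) K}
    (hf : f ∈ I) : pr I k f = 0 := by
  rw [pr_apply, Submodule.mkQ_apply, Submodule.Quotient.mk_eq_zero]
  exact hI k f hf

/-- every polynomial is a finite sum of forms -/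
theorem eq_sum_comp (f : MvPolynomial (Fin n) K) :
    f = ∑ k ∈ Finset.range (f.totalDegree + 1), homogeneousComponent k f :=
  (sum_homogeneousComponent f).symm

/-- induction over forms -/
theorem hom_induction {p : MvPolynomial (Fin n) K → Prop}
    (h0 : ∀ k, ∀ f ∈ S K n k, p f) (hadd : ∀ f g, p f → p g → p (f + g))
    (f : MvPolynomial (Fin n) K) : p f := by
  rw [eq_sum_comp f]
  refine Finset.sum_induction _ p hadd (h0 0 0 (Submodule.zero_mem _)) fun k _ => ?_
  exact h0 k _ (homogeneousComponent_mem k f)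

end Pool.Agent.H12.Rig
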