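import Mathlib
import Pool.Agent.H12.Rig.Gr

/-!
# Rigid local algebras: deformations of the multiplication operators (helper12)
-/

set_option autoImplicit false

namespace Pool.Agent.H12.Rig

open Module MvPolynomial

variable {K : Type*} [Field K] {n : ℕ}

/-- evaluation of a polynomial at commuting elements of a noncommutative algebra -/
theorem exists_algHom {A : Type*} [Ring A] [Algebra K A] (Y : Fin n → A)
    (hc : ∀ a b, Y a * Y b = Y b * Y a) :
    ∃ F : MvPolynomial (Fin n) K →ₐ[K] A, ∀ a, F (X a) = Y a := by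
  have hcomm : ∀ a ∈ Set.range Y, ∀ b ∈ Set.range Y, a * b = b * a := by
    rintro _ ⟨a, rfl⟩ _ ⟨b, rfl⟩
    exact hc a b
  let _ := Algebra.adjoinCommRingOfComm K hcomm
  refine ⟨(Algebra.adjoin K (Set.range Y)).val.comp
    (aeval fun a => (⟨Y a, Algebra.subset_adjoin ⟨a, rfl⟩⟩ : Algebra.adjoin K (Set.range Y))),
    fun a => ?_⟩
  rw [AlgHom.comp_apply, aeval_X]
  rfl

theorem exists_Psi (I : Ideal (MvPolynomial (Fin n) K))
    (Dt : Fin n → MvPolynomial (Fin n) K →ₗ[K] MvPolynomial (Fin n) K ⧸ I)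
    (hc : ∀ a b f, Ideal.Quotient.mk I (X a) * Dt b f + Dt a (X b * f) =
      Ideal.Quotient.mk I (X b) * Dt a f + Dt b (X a * f)) :
    ∃ Ψ : MvPolynomial (Fin n) K →ₗ[K] MvPolynomial (Fin n) K ⧸ I, Ψ 1 = 0 ∧
      ∀ a f, Ψ (X a * f) = Ideal.Quotient.mk I (X a) * Ψ f + Dt a f := by
  let Y : Fin n → Module.End K (MvPolynomial (Fin n) K × (MvPolynomial (Fin n) K ⧸ I)) := fun b =>
    LinearMap.prod (LinearMap.mulLeft K (X b) ∘ₗ LinearMap.fst K _ _)
      (LinearMap.mulLeft K (Ideal.Quotient.mk I (X b)) ∘ₗ LinearMap.snd K _ _ +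
        Dt b ∘ₗ LinearMap.fst K _ _)
  have hY : ∀ b f v, Y b (f, v) = (X b * f, Ideal.Quotient.mk I (X b) * v + Dt b f) :=
    fun b f v => rfl
  have hYc : ∀ a b, Y a * Y b = Y b * Y a := by
    intro a b
    refine LinearMap.ext fun ⟨f, v⟩ => ?_
    show Y a (Y b (f, v)) = Y b (Y a (f, v))
    rw [hY, hY, hY, hY]
    refine Prod.ext ?_ ?_
    · show X a * (X b * f) = X b * (X a * f)
      ring
    · show Ideal.Quotient.mk I (X a) * (Ideal.Quotient.mk I (X b) * v + Dt b f) + Dt a (X b * f) =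
        Ideal.Quotient.mk I (X b) * (Ideal.Quotient.mk I (X a) * v + Dt a f) + Dt b (X a * f)
      linear_combination hc a b f
  obtain ⟨F, hF⟩ := exists_algHom (K := K) Y hYc
  have h1 : ∀ f, (F f (1, 0)).1 = f := by
    intro f
    induction f using MvPolynomial.induction_on with
    | C c =>
      have : F (C c) = algebraMap K _ c := by
        rw [← MvPolynomial.algebraMap_eq]
        exact AlgHom.commutes F c
      rw [this]
      show (c • ((1 : MvPolynomial (Fin n) K), (0 : MvPolynomial (Fin n) K ⧸ I))).1 = C c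
      show c • (1 : MvPolynomial (Fin n) K) = C c
      rw [MvPolynomial.smul_eq_C_mul, mul_one]
    | add p q hp hq =>
      rw [map_add, LinearMap.add_apply, Prod.fst_add, hp, hq]
    | mul_X p a hp =>
      rw [mul_comm, map_mul, hF]
      show (Y a (F p (1, 0))).1 = X a * p
      have : F p (1, 0) = ((F p (1, 0)).1, (F p (1, 0)).2) := rfl
      rw [this, hY, hp]
  refine ⟨LinearMap.snd K _ _ ∘ₗ LinearMap.applyₗ
    ((1 : MvPolynomial (Fin n) K), (0 : MvPolynomial (Fin n) K ⧸ I)) ∘ₗ F.toLinearMap, ?_, ?_⟩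
  · show (F 1 (1, 0)).2 = 0
    rw [map_one]
    rfl
  · intro a f
    show (F (X a * f) (1, 0)).2 = Ideal.Quotient.mk I (X a) * (F f (1, 0)).2 + Dt a f
    rw [map_mul, hF]
    show (Y a (F f (1, 0))).2 = _
    have : F f (1, 0) = ((F f (1, 0)).1, (F f (1, 0)).2) := rfl
    rw [this, hY, h1]

end Pool.Agent.H12.Rig
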