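import Mathlib
import Pool.Agent.H12.Rig.Psi

/-!
# Rigid local algebras: the upper bound (helper12)

If every tangent vector of the Hilbert scheme at `I` comes from a derivation then the first
cohomology of the Koszul complex in degree `-1` has dimension at most three.
-/

set_option autoImplicit false

namespace Pool.Agent.H12.Rig

open Module MvPolynomial

variable {K : Type*} [Field K] {n : ℕ}

/-- commutator of `x` with an endomorphism of degree `-1` -/
def brm {V : ℕ → Type*} [∀ k, AddCommGroup (V k)] [∀ k, Module K (V k)] (x : E1 K V) :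
    Em K V →ₗ[K] E0 K V where
  toFun T := fun k => match k with
    | 0 => T 0 ∘ₗ x 0
    | k + 1 => T (k + 1) ∘ₗ x (k + 1) - x k ∘ₗ T k
  map_add' T T' := by
    funext k
    cases k with
    | zero => rfl
    | succ k =>
      ext v
      simp
      abel
  map_smul' c T := by
    funext k
    cases k with
    | zero => rfl
    | succ k =>
      ext v
      simp [smul_sub]

theorem brm_zero {V : ℕ → Type*} [∀ k, AddCommGroup (V k)] [∀ k, Module K (V k)] (x : E1 K V)
    (T : Em K V) (v : V 0) : brm x T 0 v = T 0 (x 0 v) := rfl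

theorem brm_succ {V : ℕ → Type*} [∀ k, AddCommGroup (V k)] [∀ k, Module K (V k)] (x : E1 K V)
    (T : Em K V) (k : ℕ) (v : V (k + 1)) :
    brm x T (k + 1) v = T (k + 1) (x (k + 1) v) - x k (T k v) := rfl

/-- the coboundaries and the constants -/
def theta {V : ℕ → Type*} [∀ k, AddCommGroup (V k)] [∀ k, Module K (V k)] (x : Fin n → E1 K V) :
    ((Fin n → K) × Em K V) →ₗ[K] (Fin n → E0 K V) :=
  LinearMap.pi fun b =>
    (LinearMap.pi fun k => LinearMap.toSpanSingleton K (V k →ₗ[K] V k) LinearMap.id) ∘ₗ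
      LinearMap.proj b ∘ₗ LinearMap.fst K _ _ + brm (x b) ∘ₗ LinearMap.snd K _ _

theorem theta_apply {V : ℕ → Type*} [∀ k, AddCommGroup (V k)] [∀ k, Module K (V k)]
    (x : Fin n → E1 K V) (c : Fin n → K) (T : Em K V) (b : Fin n) (k : ℕ) (v : V k) :
    theta x (c, T) b k v = c b • v + brm (x b) T k v := rfl

/-- `φ` comes from a derivation -/
def DerOf (I : Ideal (MvPolynomial (Fin n) K))
    (φ : I →ₗ[MvPolynomial (Fin n) K] (MvPolynomial (Fin n) K ⧸ I)) : Prop :=
  ∃ a : Fin n → MvPolynomial (Fin n) K ⧸ I, ∀ f : I,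
    φ f = ∑ i : Fin n, Ideal.Quotient.mk I (pderiv i (f : MvPolynomial (Fin n) K)) * a i

/-- `φ` is homogeneous of degree `-d` -/
def NegHom (I : Ideal (MvPolynomial (Fin n) K)) (d : ℕ)
    (φ : I →ₗ[MvPolynomial (Fin n) K] (MvPolynomial (Fin n) K ⧸ I)) : Prop :=
  ∀ (k : ℕ) (f : I), (f : MvPolynomial (Fin n) K).IsHomogeneous k →
    (k < d → φ f = 0) ∧ ∀ j, k = j + d → ∃ g : MvPolynomial (Fin n) K, g.IsHomogeneous j ∧
      φ f = Ideal.Quotient.mk I g

/-- the hypothesis: `T¹ = 0` in all negative degrees -/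
def T1zero (I : Ideal (MvPolynomial (Fin n) K)) : Prop :=
  ∀ d, 1 ≤ d → ∀ φ : I →ₗ[MvPolynomial (Fin n) K] (MvPolynomial (Fin n) K ⧸ I),
    NegHom I d φ → DerOf I φ

theorem pderiv_mem_S (b : Fin n) (k : ℕ) {f : MvPolynomial (Fin n) K} (hf : f ∈ S K n (k + 1)) :
    pderiv b f ∈ S K n k := by
  have := ((mem_homogeneousSubmodule (k + 1) f).1 hf).pderiv (i := b)
  simpa using this

theorem comp_mul_mem_S {k : ℕ} {f : MvPolynomial (Fin n) K} (hf : f ∈ S K n k)
    (g : MvPolynomial (Fin n) K) :
    homogeneousComponent k (f * g) = coeff 0 g • f := by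
  refine hom_induction (p := fun g => homogeneousComponent k (f * g) = coeff 0 g • f) ?_ ?_ g
  · intro j g hg
    have h1 : f * g ∈ S K n (k + j) := ((mem_homogeneousSubmodule k f).1 hf).mul
      ((mem_homogeneousSubmodule j g).1 hg)
    rw [homogeneousComponent_of_mem h1]
    by_cases hj : j = 0
    · subst hj
      rw [if_pos (by omega)]
      have h2 : g = C (coeff 0 g) := by
        have h3 := homogeneousComponent_eq_self hg
        rw [homogeneousComponent_zero] at h3
        exact h3.symm
      rw [MvPolynomial.smul_eq_C_mul]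
      conv_lhs => rw [h2]
      ring
    · rw [if_neg (by omega)]
      have h3 : coeff 0 g = 0 := by
        refine ((mem_homogeneousSubmodule j g).1 hg).coeff_eq_zero ?_
        rw [map_zero]
        exact fun h => hj h.symm
      rw [h3, zero_smul]
  · intro g g' h h'
    rw [mul_add, map_add, h, h', coeff_add, add_smul]

/-- the main step -/
theorem ker_le (I : Ideal (MvPolynomial (Fin n) K))
    (hI : ∀ k, ∀ f ∈ I, homogeneousComponent k f ∈ I) (s : ℕ)
    (hs : ∀ k, s < k → Subsingleton (V I k)) (hT : T1zero I)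
    (D : Fin n → E0 K (V I))
    (hD : ∀ a b k (v : V I k), xx I a k (D b k v) - D b (k + 1) (xx I a k v) =
      xx I b k (D a k v) - D a (k + 1) (xx I b k v)) :
    ∃ z, theta (xx I) z = D := by
  -- the total operators
  let Dt : Fin n → MvPolynomial (Fin n) K →ₗ[K] MvPolynomial (Fin n) K ⧸ I := fun a =>
    ∑ k ∈ Finset.range (s + 1), io I k ∘ₗ D a k ∘ₗ pr I k
  have hDt : ∀ a k (f : S K n k), Dt a f = io I k (D a k ((Ik I k).mkQ f)) := by
    intro a k f
    show (∑ k ∈ Finset.range (s + 1), io I k ∘ₗ D a k ∘ₗ pr I k) (f : MvPolynomial (Fin n) K) = _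
    rw [LinearMap.sum_apply]
    by_cases hk : k ∈ Finset.range (s + 1)
    · rw [Finset.sum_eq_single_of_mem k hk]
      · show io I k (D a k (pr I k f)) = _
        rw [pr_self]
      · intro j _ hjk
        show io I j (D a j (pr I j f)) = _
        rw [pr_ne I hjk, map_zero, map_zero]
    · have h1 : s < k := by
        rw [Finset.mem_range] at hk
        omega
      have := hs k h1
      rw [Subsingleton.elim (D a k ((Ik I k).mkQ f)) 0, map_zero]
      refine Finset.sum_eq_zero fun j hj => ?_
      show io I j (D a j (pr I j f)) = _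
      rw [pr_ne I (by rw [Finset.mem_range] at hj; omega), map_zero, map_zero]
  have hDtI : ∀ a f, f ∈ I → Dt a f = 0 := by
    intro a f hf
    show (∑ k ∈ Finset.range (s + 1), io I k ∘ₗ D a k ∘ₗ pr I k) f = _
    rw [LinearMap.sum_apply]
    refine Finset.sum_eq_zero fun k _ => ?_
    show io I k (D a k (pr I k f)) = _
    rw [pr_mem I hI k hf, map_zero, map_zero]
  have hc : ∀ a b f, Ideal.Quotient.mk I (X a) * Dt b f + Dt a (X b * f) =
      Ideal.Quotient.mk I (X b) * Dt a f + Dt b (X a * f) := by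
    intro a b f
    refine hom_induction (p := fun f => Ideal.Quotient.mk I (X a) * Dt b f + Dt a (X b * f) =
      Ideal.Quotient.mk I (X b) * Dt a f + Dt b (X a * f)) ?_ ?_ f
    · intro k f hf
      have e1 := hDt b k ⟨f, hf⟩
      have e2 := hDt a k ⟨f, hf⟩
      have e3 := hDt a (k + 1) (mulX b k ⟨f, hf⟩)
      have e4 := hDt b (k + 1) (mulX a k ⟨f, hf⟩)
      rw [mulX_coe, ← xx_mk] at e3 e4
      dsimp only at e1 e2 e3 e4
      rw [e1, e2, e3, e4, ← io_xx, ← io_xx, ← map_add, ← map_add]
      congr 1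
      have h := hD a b k ((Ik I k).mkQ ⟨f, hf⟩)
      rw [sub_eq_sub_iff_add_eq_add] at h
      rw [h]
    · intro f g hf hg
      rw [mul_add (X b) f g, mul_add (X a) f g, map_add, map_add, map_add, map_add, mul_add,
        mul_add]
      linear_combination hf + hg
  obtain ⟨Ψ, hΨ1, hΨ⟩ := exists_Psi I Dt hc
  -- `Ψ` is linear over the polynomial ring on `I`
  have hlin : ∀ g f, f ∈ I → Ψ (g * f) = Ideal.Quotient.mk I g * Ψ f := by
    intro g f hf
    induction g using MvPolynomial.induction_on with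
    | C c =>
      rw [← MvPolynomial.smul_eq_C_mul, map_smul]
      obtain ⟨g, hg⟩ := Ideal.Quotient.mk_surjective (Ψ f)
      rw [← hg, ← map_mul, ← MvPolynomial.smul_eq_C_mul]
      rfl
    | add p q hp hq =>
      rw [add_mul, map_add, hp, hq, map_add, add_mul]
    | mul_X p a hp =>
      rw [mul_comm p (X a), mul_assoc, hΨ, hDtI a _ (I.mul_mem_left _ hf), add_zero, hp, map_mul,
        mul_assoc]
  let φ : I →ₗ[MvPolynomial (Fin n) K] (MvPolynomial (Fin n) K ⧸ I) :=
    { toFun := fun f => Ψ f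
      map_add' := fun f g => map_add Ψ _ _
      map_smul' := fun g f => by
        show Ψ (g * (f : MvPolynomial (Fin n) K)) = g • Ψ f
        rw [hlin g f f.2]
        rfl }
  -- degree of `Ψ`
  have hdeg0 : ∀ f, f ∈ S K n 0 → Ψ f = 0 := by
    intro f hf
    have h3 := homogeneousComponent_eq_self hf
    rw [homogeneousComponent_zero] at h3
    rw [← h3]
    have h4 : C (coeff 0 f) = (coeff 0 f) • (1 : MvPolynomial (Fin n) K) := by
      rw [MvPolynomial.smul_eq_C_mul, mul_one]
    rw [h4, map_smul, hΨ1, smul_zero]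
  have hdeg : ∀ k f, f ∈ S K n (k + 1) → ∃ v : V I k, Ψ f = io I k v := by
    intro k
    induction k with
    | zero =>
      intro f hf
      obtain ⟨g, hg⟩ := exists_sum_X 0 ⟨f, hf⟩
      have hf2 : f = ∑ a, X a * (g a : MvPolynomial (Fin n) K) := by
        have := congrArg (Subtype.val) hg
        rw [AddSubmonoidClass.coe_finsetSum] at this
        exact this
      refine ⟨∑ a, D a 0 ((Ik I 0).mkQ (g a)), ?_⟩
      rw [hf2, map_sum, map_sum]
      refine Finset.sum_congr rfl fun a _ => ?_
      rw [hΨ, hdeg0 _ (g a).2, mul_zero, zero_add, hDt]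
    | succ k ih =>
      intro f hf
      obtain ⟨g, hg⟩ := exists_sum_X (k + 1) ⟨f, hf⟩
      have hf2 : f = ∑ a, X a * (g a : MvPolynomial (Fin n) K) := by
        have := congrArg (Subtype.val) hg
        rw [AddSubmonoidClass.coe_finsetSum] at this
        exact this
      choose w hw using fun a => ih (g a : MvPolynomial (Fin n) K) (g a).2
      refine ⟨∑ a, (xx I a k (w a) + D a (k + 1) ((Ik I (k + 1)).mkQ (g a))), ?_⟩
      rw [hf2, map_sum, map_sum]
      refine Finset.sum_congr rfl fun a _ => ?_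
      rw [hΨ, hw a, hDt, map_add, io_xx]
  have hneg : NegHom I 1 φ := by
    intro k f hf
    refine ⟨fun hk => ?_, fun j hj => ?_⟩
    · have hk0 : k = 0 := by omega
      subst hk0
      exact hdeg0 f hf
    · subst hj
      obtain ⟨v, hv⟩ := hdeg j f hf
      obtain ⟨g, rfl⟩ := (Ik I j).mkQ_surjective v
      rw [io_mk] at hv
      exact ⟨g, g.2, hv⟩
  obtain ⟨α, hα⟩ := hT 1 le_rfl φ hneg
  have hα' : ∀ f, f ∈ I → Ψ f = ∑ i : Fin n, Ideal.Quotient.mk I (pderiv i f) * α i :=
    fun f hf => hα ⟨f, hf⟩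
  -- constants
  choose β hβ using fun b => Ideal.Quotient.mk_surjective (α b)
  let c : Fin n → K := fun b => coeff 0 (β b)
  have hconst : ∀ k f, f ∈ S K n k → f ∈ I →
      Ψ f = ∑ b, c b • Ideal.Quotient.mk I (pderiv b f) := by
    intro k f hf hfI
    cases k with
    | zero =>
      rw [hdeg0 f hf]
      symm
      refine Finset.sum_eq_zero fun b _ => ?_
      have h3 := homogeneousComponent_eq_self hf
      rw [homogeneousComponent_zero] at h3
      rw [← h3, pderiv_C, map_zero, smul_zero]
    | succ k =>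
      obtain ⟨v, hv⟩ := hdeg k f hf
      obtain ⟨g, rfl⟩ := (Ik I k).mkQ_surjective v
      rw [io_mk] at hv
      have h1 := hα' f hfI
      have h2 : ∑ i : Fin n, Ideal.Quotient.mk I (pderiv i f) * α i =
          Ideal.Quotient.mk I (∑ i, pderiv i f * β i) := by
        rw [map_sum]
        refine Finset.sum_congr rfl fun i _ => ?_
        rw [map_mul, hβ]
      rw [h2, hv, Ideal.Quotient.eq] at h1
      have h3 := hI k _ h1
      rw [map_sub, homogeneousComponent_eq_self g.2, map_sum] at h3
      have h4 : ∑ i, homogeneousComponent k (pderiv i f * β i) = ∑ i, c i • pderiv i f := by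
        refine Finset.sum_congr rfl fun i _ => ?_
        rw [comp_mul_mem_S (pderiv_mem_S i k hf)]
      rw [h4] at h3
      rw [hv, Ideal.Quotient.eq.2 h3, map_sum]
      rfl
  -- the corrected operator
  let Ψ' : MvPolynomial (Fin n) K →ₗ[K] MvPolynomial (Fin n) K ⧸ I :=
    Ψ - ∑ b, c b • ((Ideal.Quotient.mkₐ K I).toLinearMap ∘ₗ (pderiv b).toLinearMap)
  have hΨ' : ∀ f, Ψ' f = Ψ f - ∑ b, c b • Ideal.Quotient.mk I (pderiv b f) := by
    intro f
    show (Ψ - ∑ b, c b • ((Ideal.Quotient.mkₐ K I).toLinearMap ∘ₗ (pderiv b).toLinearMap)) f = _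
    rw [LinearMap.sub_apply, LinearMap.sum_apply]
    rfl
  have hker : ∀ k (f : S K n k), f ∈ Ik I k → Ψ' f = 0 := by
    intro k f hf
    rw [hΨ', hconst k f f.2 hf, sub_self]
  have hrange : ∀ k (f : S K n (k + 1)), ∃ v : V I k, Ψ' f = io I k v := by
    intro k f
    obtain ⟨v, hv⟩ := hdeg k f f.2
    refine ⟨v - ∑ b, c b • (Ik I k).mkQ ⟨pderiv b (f : MvPolynomial (Fin n) K),
      pderiv_mem_S b k f.2⟩, ?_⟩
    rw [hΨ', hv, map_sub, map_sum]
    congr 1
  have hstep : ∀ b f, Ψ' (X b * f) =
      Ideal.Quotient.mk I (X b) * Ψ' f + Dt b f - c b • Ideal.Quotient.mk I f := by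
    intro b f
    rw [hΨ', hΨ', hΨ, mul_sub, Finset.mul_sum]
    have h1 : ∑ d, c d • Ideal.Quotient.mk I (pderiv d (X b * f)) =
        ∑ d, Ideal.Quotient.mk I (X b) * c d • Ideal.Quotient.mk I (pderiv d f) +
          c b • Ideal.Quotient.mk I f := by
      have h2 : ∀ d, c d • Ideal.Quotient.mk I (pderiv d (X b * f)) =
          Ideal.Quotient.mk I (X b) * c d • Ideal.Quotient.mk I (pderiv d f) +
            (if d = b then c b • Ideal.Quotient.mk I f else 0) := by
        intro d
        rw [Derivation.leibniz, smul_eq_mul, smul_eq_mul, map_add, smul_add, map_mul,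
          mul_smul_comm, map_mul]
        congr 1
        by_cases hdb : d = b
        · subst hdb
          rw [if_pos rfl, pderiv_X_self, map_one, mul_one]
        · rw [if_neg hdb, pderiv_X_of_ne (fun h => hdb h.symm), map_zero, mul_zero, smul_zero]
      rw [Finset.sum_congr rfl fun d _ => h2 d, Finset.sum_add_distrib]
      simp
    rw [h1]
    ring
  -- the operators of degree `-1`
  choose L hL using fun k => LinearMap.exists_leftInverse_of_injective (io I k)
    (LinearMap.ker_eq_bot.2 (io_inj I k))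
  have hL' : ∀ k v, L k (io I k v) = v := fun k v => LinearMap.congr_fun (hL k) v
  let T : Em K (V I) := fun k => Submodule.liftQ (Ik I (k + 1))
    (L k ∘ₗ Ψ' ∘ₗ (S K n (k + 1)).subtype) fun f hf => by
      rw [LinearMap.mem_ker]
      show L k (Ψ' f) = 0
      rw [hker (k + 1) f hf, map_zero]
  have hT' : ∀ k (f : S K n (k + 1)), io I k (T k ((Ik I (k + 1)).mkQ f)) = Ψ' f := by
    intro k f
    show io I k (L k (Ψ' f)) = Ψ' f
    obtain ⟨v, hv⟩ := hrange k f
    rw [hv, hL']
  refine ⟨(c, T), ?_⟩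
  funext b k
  refine LinearMap.ext fun v => ?_
  rw [theta_apply]
  obtain ⟨f, rfl⟩ := (Ik I k).mkQ_surjective v
  cases k with
  | zero =>
    rw [brm_zero]
    apply io_inj I 0
    rw [map_add, xx_mk, hT', mulX_coe, hstep, map_smul, io_mk, hDt]
    have h0 : Ψ' f = 0 := by
      rw [hΨ', hdeg0 _ f.2]
      have h3 := homogeneousComponent_eq_self f.2
      rw [homogeneousComponent_zero] at h3
      rw [← h3]
      simp
    rw [h0]
    ring
  | succ k =>
    rw [brm_succ]
    apply io_inj I (k + 1)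
    rw [map_add, map_sub, io_xx, xx_mk, hT', mulX_coe, hstep, map_smul, io_mk, hDt, hT']
    ring

end Pool.Agent.H12.Rig
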