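import Mathlib
import Pool.Agent.H12.Rig.Up
import Pool.Agent.H12.Rig.Num

/-!
# Rigid local algebras: the inequality for the Hilbert function (helper12)
-/

set_option autoImplicit false

namespace Pool.Agent.H12.Rig

open Module MvPolynomial

variable {K : Type*} [Field K]

theorem finrank_Em (V : ℕ → Type*) [∀ k, AddCommGroup (V k)] [∀ k, Module K (V k)]
    [∀ k, FiniteDimensional K (V k)] (s : ℕ) (hs : ∀ k, s < k → Subsingleton (V k)) :
    FiniteDimensional K (Em K V) ∧ finrank K (Em K V) =
      ∑ k ∈ Finset.range (s + 1), finrank K (V (k + 1)) * finrank K (V k) := by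
  have hEm := finrank_pi_nat (K := K) (fun k => V (k + 1) →ₗ[K] V k) s (fun k hk => by
    have := hs k hk
    infer_instance)
  refine ⟨hEm.1, ?_⟩
  rw [hEm.2]
  simp only [Module.finrank_linearMap]

theorem finite_E0 (V : ℕ → Type*) [∀ k, AddCommGroup (V k)] [∀ k, Module K (V k)]
    [∀ k, FiniteDimensional K (V k)] (s : ℕ) (hs : ∀ k, s < k → Subsingleton (V k)) :
    FiniteDimensional K (E0 K V) :=
  (finrank_pi_nat (K := K) (fun k => V k →ₗ[K] V k) s (fun k hk => by
    have := hs k hk
    infer_instance)).1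

/-- Hilbert function -/
noncomputable def hf {n : ℕ} (I : Ideal (MvPolynomial (Fin n) K)) (k : ℕ) : ℕ :=
  finrank K (V I k)

theorem hf_ineq (I : Ideal (MvPolynomial (Fin 3) K))
    (hI : ∀ k, ∀ f ∈ I, homogeneousComponent k f ∈ I) (s : ℕ)
    (hs : ∀ k, s < k → Subsingleton (V I k)) (hT : T1zero I) :
    3 * ∑ k ∈ Finset.range (s + 1), hf I k * hf I k +
      ∑ k ∈ Finset.range (s + 1), hf I k * hf I (k + 2) ≤
    3 + 4 * ∑ k ∈ Finset.range (s + 1), hf I k * hf I (k + 1) := by
  have h1 := ker_d1_ge (K := K) (xx I) s hs (xx_comm I) (xx_surj I)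
  have hE0 := finite_E0 (K := K) (V I) s hs
  have hEm := finrank_Em (K := K) (V I) s hs
  have := hEm.1
  have h2 : LinearMap.ker (d1 (xx I)) ≤ LinearMap.range (theta (xx I)) := by
    intro D hD
    rw [LinearMap.mem_ker] at hD
    have h3 : ∀ c k (v : V I k), xx I (c + 1) k (D (c + 2) k v) - D (c + 2) (k + 1)
        (xx I (c + 1) k v) = xx I (c + 2) k (D (c + 1) k v) - D (c + 1) (k + 1)
        (xx I (c + 2) k v) := by
      intro c k v
      have h4 := LinearMap.congr_fun (congrFun (congrFun hD c) k) v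
      have h5 : d1 (xx I) D c k v = (xx I (c + 1) k (D (c + 2) k v) - D (c + 2) (k + 1)
        (xx I (c + 1) k v)) - (xx I (c + 2) k (D (c + 1) k v) - D (c + 1) (k + 1)
        (xx I (c + 2) k v)) := rfl
      rw [h5] at h4
      exact sub_eq_zero.1 h4
    refine ker_le I hI s hs hT D ?_
    intro a b k v
    have e0 := h3 0 k v
    have e1 := h3 1 k v
    have e2 := h3 2 k v
    fin_cases a <;> fin_cases b
    · rfl
    · exact e2
    · exact e1.symm
    · exact e2.symm
    · rfl
    · exact e0
    · exact e1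
    · exact e0.symm
    · rfl
  have h3 := Submodule.finrank_mono h2
  have h4 := LinearMap.finrank_range_le (theta (xx I))
  rw [Module.finrank_prod, Module.finrank_fin_fun, hEm.2] at h4
  have h5 : ∑ k ∈ Finset.range (s + 1), finrank K (V I (k + 1)) * finrank K (V I k) =
      ∑ k ∈ Finset.range (s + 1), hf I k * hf I (k + 1) :=
    Finset.sum_congr rfl fun k _ => mul_comm _ _
  rw [h5] at h4
  unfold hf at h4 ⊢
  omega

end Pool.Agent.H12.Rig
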