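import Mathlib
import Pool.Agent.H12.Rig.Ineq

/-!
# Rigid local algebras: dimensions and the socle argument (helper12)
-/

set_option autoImplicit false

namespace Pool.Agent.H12.Rig

open Module MvPolynomial

variable {K : Type*} [Field K] {n : ℕ}

theorem set_degree_eq (k : ℕ) :
    {d : Fin n →₀ ℕ | d.degree = k} = ↑((Finset.univ : Finset (Fin n)).finsuppAntidiag k) := by
  ext d
  simp [Finset.mem_finsuppAntidiag, Finsupp.degree_eq_sum]

theorem finrank_S (k : ℕ) : finrank K (S K n k) = (n + k - 1).choose k := by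
  rw [S_eq, homogeneousSubmodule_eq_finsupp_supported, set_degree_eq]
  rw [(AddMonoidAlgebra.supportedEquivFinsupp (R := K) (S := K)
    (↑((Finset.univ : Finset (Fin n)).finsuppAntidiag k) : Set (Fin n →₀ ℕ))).finrank_eq]
  rw [Module.finrank_finsupp_self]
  simp [Finset.card_finsuppAntidiag_nat_eq_choose]

theorem finrank_S3 (k : ℕ) : finrank K (S K 3 (k + 1)) = finrank K (S K 3 k) + (k + 2) := by
  rw [finrank_S, finrank_S]
  have e1 : 3 + (k + 1) - 1 = k + 3 := by omega
  have e2 : 3 + k - 1 = k + 2 := by omega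
  rw [e1, e2, Nat.choose_succ_succ' (k + 2) k]
  congr 1
  have : (k + 2).choose (k + 1) = k + 2 := by
    rw [Nat.choose_succ_self_right]
  exact this

theorem finrank_S3_zero : finrank K (S K 3 0) = 1 := by
  rw [finrank_S]
  rfl

/-- Hilbert function in terms of the ideal -/
theorem hf_add (I : Ideal (MvPolynomial (Fin n) K)) (k : ℕ) :
    hf I k + finrank K (Ik I k) = finrank K (S K n k) :=
  Submodule.finrank_quotient_add_finrank (Ik I k)

theorem mul_mem_S {j k : ℕ} {f g : MvPolynomial (Fin n) K} (hf : f ∈ S K n j)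
    (hg : g ∈ S K n k) : f * g ∈ S K n (j + k) :=
  ((mem_homogeneousSubmodule j f).1 hf).mul ((mem_homogeneousSubmodule k g).1 hg)

theorem comp_of_mem {j k : ℕ} {f : MvPolynomial (Fin n) K} (hf : f ∈ S K n j) :
    homogeneousComponent k f = if k = j then f else 0 := homogeneousComponent_of_mem hf

theorem comp_self {k : ℕ} {f : MvPolynomial (Fin n) K} (hf : f ∈ S K n k) :
    homogeneousComponent k f = f := homogeneousComponent_eq_self hf

/-- component of a product with a form -/
theorem comp_mul_form {j : ℕ} {g : MvPolynomial (Fin n) K} (hg : g ∈ S K n j) (k : ℕ)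
    (f : MvPolynomial (Fin n) K) :
    homogeneousComponent (k + j) (f * g) = homogeneousComponent k f * g := by
  refine hom_induction (p := fun f => homogeneousComponent (k + j) (f * g) =
    homogeneousComponent k f * g) ?_ ?_ f
  · intro i f hf
    rw [comp_of_mem (mul_mem_S hf hg), comp_of_mem hf]
    by_cases hik : k = i
    · rw [if_pos (by omega), if_pos hik]
    · rw [if_neg (by omega), if_neg hik, zero_mul]
  · intro f f' h h'
    rw [add_mul, map_add, h, h', map_add, add_mul]

/-- small components of a multiple of a form vanish -/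
theorem comp_mul_form_lt {j : ℕ} {g : MvPolynomial (Fin n) K} (hg : g ∈ S K n j) (k : ℕ)
    (hk : k < j) (f : MvPolynomial (Fin n) K) : homogeneousComponent k (g * f) = 0 := by
  refine hom_induction (p := fun f => homogeneousComponent k (g * f) = 0) ?_ ?_ f
  · intro i f hf
    rw [comp_of_mem (mul_mem_S hg hf), if_neg (by omega)]
  · intro f f' h h'
    rw [mul_add, map_add, h, h', add_zero]

/-- forms of degree zero are constants -/
theorem form_zero {f : MvPolynomial (Fin n) K} (hf : f ∈ S K n 0) : f = C (coeff 0 f) := by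
  have h := comp_self hf
  rw [homogeneousComponent_zero] at h
  exact h.symm

/-- **Generators and socle.** If `T¹ = 0` and `v` is a socle element of degree `e`, then the ideal
has no minimal generator of degree `j + 1` with `j > e`. -/
theorem no_gen (I : Ideal (MvPolynomial (Fin n) K))
    (hI : ∀ k, ∀ f ∈ I, homogeneousComponent k f ∈ I) (hT : T1zero I) {e j : ℕ} (hej : e < j)
    {v : MvPolynomial (Fin n) K} (hv : v ∈ S K n e) (hvI : v ∉ I) (hsoc : ∀ a, X a * v ∈ I)
    (f : MvPolynomial (Fin n) K) (hfI : f ∈ I) (hf : f ∈ S K n (j + 1)) :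
    ∃ w : Fin n → MvPolynomial (Fin n) K, (∀ a, w a ∈ I ∧ w a ∈ S K n j) ∧
      f = ∑ a, X a * w a := by
  -- the subspace generated by the lower part
  let Φ : (Fin n → Ik I j) →ₗ[K] S K n (j + 1) :=
    ∑ a, mulX a j ∘ₗ (Ik I j).subtype ∘ₗ LinearMap.proj a
  have hΦ : ∀ w, Φ w = ∑ a, mulX a j (w a) := by
    intro w
    show (∑ a, mulX a j ∘ₗ (Ik I j).subtype ∘ₗ LinearMap.proj a : (Fin n → Ik I j) →ₗ[K] _) w = _
    rw [LinearMap.sum_apply]
    rfl
  by_cases hmem : (⟨f, hf⟩ : S K n (j + 1)) ∈ LinearMap.range Φ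
  · obtain ⟨w, hw⟩ := hmem
    refine ⟨fun a => ((w a : S K n j) : MvPolynomial (Fin n) K),
      fun a => ⟨(w a).2, (w a : S K n j).2⟩, ?_⟩
    have h1 := congrArg Subtype.val hw
    rw [hΦ, AddSubmonoidClass.coe_finsetSum] at h1
    exact h1.symm
  · exfalso
    obtain ⟨θ, hθf, hθ⟩ := Submodule.exists_le_ker_of_notMem hmem
    -- the map `φ`
    let Φ' : MvPolynomial (Fin n) K →ₗ[K] S K n (j + 1) :=
      LinearMap.codRestrict (S K n (j + 1)) (homogeneousComponent (j + 1))
        fun f => homogeneousComponent_mem (j + 1) f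
    let ψ : MvPolynomial (Fin n) K →ₗ[K] MvPolynomial (Fin n) K ⧸ I :=
      LinearMap.toSpanSingleton K _ (Ideal.Quotient.mk I v) ∘ₗ θ ∘ₗ Φ'
    have hψ : ∀ g, ψ g = θ (Φ' g) • Ideal.Quotient.mk I v := fun g => rfl
    have hX : ∀ a g, g ∈ I → ψ (X a * g) = 0 := by
      intro a g hg
      have h1 : Φ' (X a * g) = mulX a j ⟨homogeneousComponent j g, homogeneousComponent_mem j g⟩ := by
        ext1
        show homogeneousComponent (j + 1) (X a * g) = X a * homogeneousComponent j g
        rw [mul_comm (X a) g, comp_mul_form (j := 1) (isHomogeneous_X K a), mul_comm]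
      have h2 : Φ' (X a * g) ∈ LinearMap.range Φ := by
        refine ⟨Pi.single a ⟨⟨homogeneousComponent j g, homogeneousComponent_mem j g⟩,
          hI j g hg⟩, ?_⟩
        rw [hΦ, h1, Finset.sum_eq_single a]
        · rw [Pi.single_eq_same]
        · intro b _ hb
          rw [Pi.single_eq_of_ne hb]
          simp
        · intro h
          exact absurd (Finset.mem_univ a) h
      rw [hψ, LinearMap.mem_ker.1 (hθ h2), zero_smul]
    have hsv : ∀ a, Ideal.Quotient.mk I (X a) * Ideal.Quotient.mk I v = 0 := by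
      intro a
      rw [← map_mul]
      exact Ideal.Quotient.eq_zero_iff_mem.2 (hsoc a)
    have hlin : ∀ p g, g ∈ I → ψ (p * g) = Ideal.Quotient.mk I p * ψ g := by
      intro p
      induction p using MvPolynomial.induction_on with
      | C c =>
        intro g hg
        rw [← MvPolynomial.smul_eq_C_mul, map_smul]
        obtain ⟨r, hr⟩ := Ideal.Quotient.mk_surjective (ψ g)
        rw [← hr, ← map_mul, ← MvPolynomial.smul_eq_C_mul]
        rfl
      | add p q hp hq =>
        intro g hg
        rw [add_mul, map_add, hp g hg, hq g hg, map_add, add_mul]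
      | mul_X p a hp =>
        intro g hg
        rw [mul_assoc, hp _ (I.mul_mem_left _ hg), hX a g hg, mul_zero, map_mul, mul_assoc, hψ,
          mul_smul_comm, hsv, smul_zero, mul_zero]
    let φ : I →ₗ[MvPolynomial (Fin n) K] (MvPolynomial (Fin n) K ⧸ I) :=
      { toFun := fun f => ψ f
        map_add' := fun f g => map_add ψ _ _
        map_smul' := fun g f => by
          show ψ (g * (f : MvPolynomial (Fin n) K)) = g • ψ f
          rw [hlin g f f.2]
          rfl }
    have hneg : NegHom I (j + 1 - e) φ := by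
      intro k g hg
      have hφg : φ g = θ (Φ' g) • Ideal.Quotient.mk I v := rfl
      by_cases hk : k = j + 1
      · subst hk
        refine ⟨fun h => by omega, fun i hi => ?_⟩
        have hie : i = e := by omega
        subst hie
        refine ⟨θ (Φ' g) • v, Submodule.smul_mem (S K n i) _ hv, ?_⟩
        rw [hφg]
        rfl
      · have h0 : Φ' g = 0 := by
          ext1
          show homogeneousComponent (j + 1) (g : MvPolynomial (Fin n) K) = 0
          rw [comp_of_mem hg, if_neg (fun h => hk h.symm)]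
        have hz : φ g = 0 := by rw [hφg, h0, map_zero, zero_smul]
        refine ⟨fun _ => hz, fun i _ => ⟨0, isHomogeneous_zero _ _ _, ?_⟩⟩
        rw [hz, map_zero]
    obtain ⟨α, hα⟩ := hT (j + 1 - e) (by omega) φ hneg
    choose β hβ using fun b => Ideal.Quotient.mk_surjective (α b)
    have h1 : ψ f = ∑ i, Ideal.Quotient.mk I (pderiv i f) * α i := hα ⟨f, hfI⟩
    have h2 : ∑ i : Fin n, Ideal.Quotient.mk I (pderiv i f) * α i =
        Ideal.Quotient.mk I (∑ i, pderiv i f * β i) := by
      rw [map_sum]
      refine Finset.sum_congr rfl fun i _ => ?_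
      rw [map_mul, hβ]
    have h3 : Φ' f = ⟨f, hf⟩ := by
      ext1
      exact comp_self hf
    have h4 : ψ f = Ideal.Quotient.mk I (θ ⟨f, hf⟩ • v) := by
      rw [hψ, h3]
      rfl
    rw [h2, h4, Ideal.Quotient.eq] at h1
    have h5 := hI e _ h1
    rw [map_sub, map_smul, comp_self hv, map_sum, Finset.sum_eq_zero, sub_zero] at h5
    · refine hvI ?_
      have h6 : v = C (θ ⟨f, hf⟩)⁻¹ * (θ ⟨f, hf⟩ • v) := by
        rw [← MvPolynomial.smul_eq_C_mul, smul_smul, inv_mul_cancel₀ hθf, one_smul]
      rw [h6]
      exact I.mul_mem_left _ h5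
    · intro i _
      exact comp_mul_form_lt (pderiv_mem_S i j hf) e hej _

end Pool.Agent.H12.Rig
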