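import Mathlib
import Pool.Agent.H12.Rig.Dim

/-!
# Rigid local algebras: the catalecticant ideal and an ideal of two forms (helper12)
-/

set_option autoImplicit false

namespace Pool.Agent.H12.Rig

open Module MvPolynomial

variable {K : Type*} [Field K] {n : ℕ}

/-- the largest ideal which agrees with `I` in degree `t` -/
noncomputable def LL (I : Ideal (MvPolynomial (Fin n) K)) (t : ℕ) :
    Ideal (MvPolynomial (Fin n) K) where
  carrier := {f | ∀ g, pr I t (f * g) = 0}
  zero_mem' := fun g => by rw [zero_mul, map_zero]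
  add_mem' := fun {f f'} hf hf' g => by rw [add_mul, map_add, hf g, hf' g, add_zero]
  smul_mem' := fun c f hf g => by
    rw [smul_eq_mul, mul_comm c f, mul_assoc]
    exact hf (c * g)

theorem mem_LL {I : Ideal (MvPolynomial (Fin n) K)} {t : ℕ} {f : MvPolynomial (Fin n) K} :
    f ∈ LL I t ↔ ∀ g, pr I t (f * g) = 0 := Iff.rfl

theorem pr_eq_zero_of_comp {I : Ideal (MvPolynomial (Fin n) K)} {t : ℕ}
    {f : MvPolynomial (Fin n) K} (h : homogeneousComponent t f = 0) : pr I t f = 0 := by
  rw [pr_apply]
  have h2 : (⟨homogeneousComponent t f, homogeneousComponent_mem t f⟩ : S K n t) = 0 := by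
    ext1
    exact h
  rw [h2, map_zero]

theorem pr_comp {I : Ideal (MvPolynomial (Fin n) K)} {t : ℕ} {f g : MvPolynomial (Fin n) K}
    (h : homogeneousComponent t f = homogeneousComponent t g) : pr I t f = pr I t g := by
  rw [← sub_eq_zero, ← map_sub]
  apply pr_eq_zero_of_comp
  rw [map_sub, h, sub_self]

theorem LL_of_mem {I : Ideal (MvPolynomial (Fin n) K)}
    (hI : ∀ k, ∀ f ∈ I, homogeneousComponent k f ∈ I) (t : ℕ) {f : MvPolynomial (Fin n) K}
    (hf : f ∈ I) : f ∈ LL I t := fun _ => pr_mem I hI t (I.mul_mem_right _ hf)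

theorem LL_top {I : Ideal (MvPolynomial (Fin n) K)} {t : ℕ} {f : MvPolynomial (Fin n) K}
    (hf : f ∈ S K n t) (hfL : f ∈ LL I t) : f ∈ I := by
  have h := hfL 1
  rw [mul_one, show f = ((⟨f, hf⟩ : S K n t) : MvPolynomial (Fin n) K) from rfl, pr_self,
    Submodule.mkQ_apply, Submodule.Quotient.mk_eq_zero] at h
  exact h

theorem LL_high {I : Ideal (MvPolynomial (Fin n) K)} {t k : ℕ} (hk : t < k)
    {f : MvPolynomial (Fin n) K} (hf : f ∈ S K n k) : f ∈ LL I t := fun g =>
  pr_eq_zero_of_comp (comp_mul_form_lt hf t hk g)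

/-- for forms it is enough to test with forms of the complementary degree -/
theorem LL_iff {I : Ideal (MvPolynomial (Fin n) K)} {t j k : ℕ} (hjk : k + j = t)
    {f : MvPolynomial (Fin n) K} (hf : f ∈ S K n j) :
    f ∈ LL I t ↔ ∀ g ∈ S K n k, pr I t (f * g) = 0 := by
  constructor
  · intro h g _
    exact h g
  · intro h g
    rw [← h (homogeneousComponent k g) (homogeneousComponent_mem k g)]
    apply pr_comp
    rw [mul_comm f g, mul_comm f (homogeneousComponent k g), ← hjk, comp_mul_form hf k g,
      comp_self (mul_mem_S (homogeneousComponent_mem k g) hf)]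

theorem LL_hom {I : Ideal (MvPolynomial (Fin n) K)} {t : ℕ} (k : ℕ)
    {f : MvPolynomial (Fin n) K} (hf : f ∈ LL I t) : homogeneousComponent k f ∈ LL I t := by
  by_cases hk : k ≤ t
  · obtain ⟨j, rfl⟩ : ∃ j, t = j + k := ⟨t - k, by omega⟩
    rw [LL_iff rfl (homogeneousComponent_mem k f)]
    intro g hg
    rw [← hf g]
    apply pr_comp
    rw [add_comm j k, comp_mul_form hg k f, comp_self]
    exact mul_mem_S (homogeneousComponent_mem k f) hg
  · exact LL_high (by omega) (homogeneousComponent_mem k f)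

/-- symmetry of the Hilbert function -/
theorem hf_LL_symm {I : Ideal (MvPolynomial (Fin n) K)} {t j k : ℕ} (ht : hf I t = 1)
    (hjk : k + j = t) : hf (LL I t) j = hf (LL I t) k := by
  have e : V I t ≃ₗ[K] K := LinearEquiv.ofFinrankEq (V I t) K (by
    rw [Module.finrank_self]
    exact ht)
  let B : S K n j →ₗ[K] S K n k →ₗ[K] K :=
    ((LinearMap.mul K (MvPolynomial (Fin n) K)).compl₁₂ (S K n j).subtype
      (S K n k).subtype).compr₂ (e.toLinearMap ∘ₗ pr I t)
  have hB : ∀ f g, B f g = e (pr I t ((f : MvPolynomial (Fin n) K) *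
    (g : MvPolynomial (Fin n) K))) := fun f g => rfl
  have hk1 : LinearMap.ker B = Ik (LL I t) j := by
    ext f
    rw [LinearMap.mem_ker, mem_Ik, LL_iff hjk f.2]
    constructor
    · intro h g hg
      have h2 := LinearMap.congr_fun h ⟨g, hg⟩
      rw [hB] at h2
      exact e.map_eq_zero_iff.1 h2
    · intro h
      refine LinearMap.ext fun g => ?_
      rw [hB, h g g.2, map_zero]
      rfl
  have hk2 : LinearMap.ker B.flip = Ik (LL I t) k := by
    ext g
    rw [LinearMap.mem_ker, mem_Ik, LL_iff (k := j) (by omega) g.2]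
    constructor
    · intro h f hf
      have h2 := LinearMap.congr_fun h ⟨f, hf⟩
      rw [LinearMap.flip_apply, hB] at h2
      rw [mul_comm]
      exact e.map_eq_zero_iff.1 h2
    · intro h
      refine LinearMap.ext fun f => ?_
      rw [LinearMap.flip_apply, hB, mul_comm, h f f.2, map_zero]
      rfl
  have hflip : B.flip = B.dualMap ∘ₗ (Module.evalEquiv K (S K n k)).toLinearMap := by
    refine LinearMap.ext fun g => LinearMap.ext fun f => ?_
    rfl
  have hr : finrank K (LinearMap.range B.flip) = finrank K (LinearMap.range B) := by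
    rw [hflip, LinearMap.range_comp, LinearEquiv.range, Submodule.map_top,
      LinearMap.finrank_range_dualMap_eq_finrank_range]
  have h1 := LinearMap.finrank_range_add_finrank_ker B
  have h2 := LinearMap.finrank_range_add_finrank_ker B.flip
  rw [hk1] at h1
  rw [hk2, hr] at h2
  have h3 := hf_add (LL I t) j
  have h4 := hf_add (LL I t) k
  omega

/-! ### Linear forms are prime -/

theorem prime_linear {l : MvPolynomial (Fin n) K} (hl : l ∈ S K n 1) (h0 : l ≠ 0) : Prime l := by
  apply Irreducible.prime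
  have hdeg : l.totalDegree = 1 := ((mem_homogeneousSubmodule 1 l).1 hl).totalDegree h0
  have hunit : ∀ a : MvPolynomial (Fin n) K, a ≠ 0 → a.totalDegree = 0 → IsUnit a := by
    intro a ha ha0
    rw [MvPolynomial.totalDegree_eq_zero_iff_eq_C] at ha0
    rw [ha0]
    refine IsUnit.map C (isUnit_iff_ne_zero.2 ?_)
    intro h
    rw [h, C_0] at ha0
    exact ha ha0
  refine ⟨?_, ?_⟩
  · intro hu
    rw [MvPolynomial.isUnit_iff_totalDegree_of_isReduced] at hu
    omega
  · intro a b hab
    have ha : a ≠ 0 := by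
      rintro rfl
      rw [zero_mul] at hab
      exact h0 hab
    have hb : b ≠ 0 := by
      rintro rfl
      rw [mul_zero] at hab
      exact h0 hab
    have h1 := totalDegree_mul_of_isDomain ha hb
    rw [← hab, hdeg] at h1
    rcases Nat.eq_zero_or_pos a.totalDegree with h2 | h2
    · exact Or.inl (hunit a ha h2)
    · exact Or.inr (hunit b hb (by omega))

/-- divisibility of forms by a form -/
theorem dvd_form {e k : ℕ} {l f : MvPolynomial (Fin n) K} (hl : l ∈ S K n e)
    (hf : f ∈ S K n (k + e)) (h : l ∣ f) : ∃ c ∈ S K n k, f = l * c := by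
  obtain ⟨c, rfl⟩ := h
  refine ⟨homogeneousComponent k c, homogeneousComponent_mem k c, ?_⟩
  rw [mul_comm l (homogeneousComponent k c), ← comp_mul_form hl, mul_comm c l, comp_self hf]

theorem dvd_form_lt {e k : ℕ} (hk : k < e) {l f : MvPolynomial (Fin n) K} (hl : l ∈ S K n e)
    (hf : f ∈ S K n k) (h : l ∣ f) : f = 0 := by
  obtain ⟨c, rfl⟩ := h
  rw [← comp_self hf, comp_mul_form_lt hl k hk]

/-- multiplication by a form -/
noncomputable def mulF {g : MvPolynomial (Fin n) K} {e k j : ℕ} (hg : g ∈ S K n e)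
    (hj : e + k = j) : S K n k →ₗ[K] S K n j where
  toFun f := ⟨g * (f : MvPolynomial (Fin n) K), by
    rw [← hj]
    exact mul_mem_S hg f.2⟩
  map_add' f f' := by
    ext1
    show g * ((f : MvPolynomial (Fin n) K) + (f' : MvPolynomial (Fin n) K)) =
      g * (f : MvPolynomial (Fin n) K) + g * (f' : MvPolynomial (Fin n) K)
    ring
  map_smul' c f := by
    ext1
    show g * (c • (f : MvPolynomial (Fin n) K)) = c • (g * (f : MvPolynomial (Fin n) K))
    rw [mul_smul_comm]

theorem mulF_coe {g : MvPolynomial (Fin n) K} {e k j : ℕ} (hg : g ∈ S K n e) (hj : e + k = j)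
    (f : S K n k) : (mulF hg hj f : MvPolynomial (Fin n) K) = g * (f : MvPolynomial (Fin n) K) :=
  rfl

theorem finrank_mulF {g : MvPolynomial (Fin n) K} {e k j : ℕ} (hg : g ∈ S K n e)
    (hj : e + k = j) (h0 : g ≠ 0) :
    finrank K (LinearMap.range (mulF hg hj)) = finrank K (S K n k) := by
  apply LinearMap.finrank_range_of_inj
  intro f f' h
  have h1 := congrArg Subtype.val h
  rw [mulF_coe, mulF_coe] at h1
  ext1
  exact mul_left_cancel₀ h0 h1

end Pool.Agent.H12.Rig
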