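import Mathlib
import Pool.Agent.H12.Rig.Ideals

/-!
# Rigid local algebras: the contradiction (helper12)
-/

set_option autoImplicit false

namespace Pool.Agent.H12.Rig

open Module MvPolynomial

variable {K : Type*} [Field K]

/-- the ideal generated by a linear form and a form of degree `e` which is not a multiple of it:
its Hilbert function is constant from `e - 1` on -/
theorem hf_span {l g : MvPolynomial (Fin 3) K} {e : ℕ} (hl : l ∈ S K 3 1) (hl0 : l ≠ 0)
    (hg : g ∈ S K 3 (e + 1)) (hlg : ¬ l ∣ g) (j : ℕ) (hj : e ≤ j) :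
    hf (Ideal.span {l, g}) j = e + 1 := by
  have hp := prime_linear hl hl0
  have hg0 : g ≠ 0 := by
    rintro rfl
    exact hlg (dvd_zero l)
  have hmem : ∀ f, f ∈ Ideal.span {l, g} ↔ ∃ a b, a * l + b * g = f := fun f =>
    Ideal.mem_span_pair
  have hadd := hf_add (Ideal.span {l, g}) j
  rcases Nat.eq_zero_or_pos j with hj0 | hjpos
  · -- degree zero
    subst hj0
    have he : e = 0 := by omega
    subst he
    have h1 : Ik (Ideal.span {l, g}) 0 = ⊥ := by
      rw [eq_bot_iff]
      intro f hf
      rw [mem_Ik, hmem] at hf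
      obtain ⟨a, b, hab⟩ := hf
      rw [Submodule.mem_bot]
      ext1
      show (f : MvPolynomial (Fin 3) K) = 0
      rw [← comp_self f.2, ← hab, map_add, mul_comm a l, mul_comm b g,
        comp_mul_form_lt hl 0 (by omega), comp_mul_form_lt hg 0 (by omega), add_zero]
    rw [h1, finrank_bot, finrank_S3_zero] at hadd
    omega
  · obtain ⟨i, rfl⟩ : ∃ i, j = i + 1 := ⟨j - 1, by omega⟩
    have hS := finrank_S3 (K := K) i
    have hA := finrank_mulF (k := i) (j := i + 1) hl (by omega) hl0
    rcases Nat.lt_or_ge (i + 1) (e + 1) with hlt | hge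
    · -- only multiples of `l`
      have hei : e = i + 1 := by omega
      have h1 : Ik (Ideal.span {l, g}) (i + 1) =
          LinearMap.range (mulF (k := i) (j := i + 1) hl (by omega)) := by
        ext f
        rw [mem_Ik, hmem]
        constructor
        · rintro ⟨a, b, hab⟩
          refine ⟨⟨homogeneousComponent i a, homogeneousComponent_mem i a⟩, ?_⟩
          ext1
          rw [mulF_coe]
          show l * homogeneousComponent i a = (f : MvPolynomial (Fin 3) K)
          rw [← comp_self f.2, ← hab, map_add, mul_comm b g,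
            comp_mul_form_lt hg (i + 1) (by omega), add_zero, comp_mul_form hl, mul_comm]
        · rintro ⟨a, rfl⟩
          refine ⟨a, 0, ?_⟩
          rw [mulF_coe]
          ring
      rw [h1, hA, hS] at hadd
      omega
    · obtain ⟨m, hm⟩ : ∃ m, e + 1 + m = i + 1 := ⟨i - e, by omega⟩
      have hB := finrank_mulF (k := m) (j := i + 1) hg hm hg0
      have h1 : Ik (Ideal.span {l, g}) (i + 1) =
          LinearMap.range (mulF (k := i) (j := i + 1) hl (by omega)) ⊔
            LinearMap.range (mulF (k := m) (j := i + 1) hg hm) := by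
        ext f
        rw [mem_Ik, hmem, Submodule.mem_sup]
        constructor
        · rintro ⟨a, b, hab⟩
          refine ⟨_, ⟨⟨homogeneousComponent i a, homogeneousComponent_mem i a⟩, rfl⟩,
            _, ⟨⟨homogeneousComponent m b, homogeneousComponent_mem m b⟩, rfl⟩, ?_⟩
          ext1
          show l * homogeneousComponent i a + g * homogeneousComponent m b =
            (f : MvPolynomial (Fin 3) K)
          rw [← comp_self f.2, ← hab, map_add, comp_mul_form hl, ← hm, add_comm (e + 1) m,
            comp_mul_form hg]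
          ring
        · rintro ⟨_, ⟨a, rfl⟩, _, ⟨b, rfl⟩, hab⟩
          refine ⟨a, b, ?_⟩
          rw [← hab]
          show (a : MvPolynomial (Fin 3) K) * l + (b : MvPolynomial (Fin 3) K) * g =
            l * (a : MvPolynomial (Fin 3) K) + g * (b : MvPolynomial (Fin 3) K)
          ring
      have hsum := Submodule.finrank_sup_add_finrank_inf_eq
        (LinearMap.range (mulF (k := i) (j := i + 1) hl (by omega)))
        (LinearMap.range (mulF (k := m) (j := i + 1) hg hm))
      -- the intersection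
      rcases Nat.eq_zero_or_pos m with hm0 | hmpos
      · subst hm0
        have h2 : LinearMap.range (mulF (k := i) (j := i + 1) hl (by omega)) ⊓
            LinearMap.range (mulF (k := 0) (j := i + 1) hg hm) = ⊥ := by
          rw [eq_bot_iff]
          rintro f ⟨⟨a, ha⟩, ⟨b, hb⟩⟩
          have h3 : g * (b : MvPolynomial (Fin 3) K) = l * (a : MvPolynomial (Fin 3) K) := by
            have h4 := congrArg Subtype.val (hb.trans ha.symm)
            exact h4
          have h5 : l ∣ (b : MvPolynomial (Fin 3) K) :=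
            (hp.dvd_or_dvd (h3 ▸ dvd_mul_right l _)).resolve_left hlg
          have h6 := dvd_form_lt (by omega) hl b.2 h5
          rw [Submodule.mem_bot, ← hb]
          ext1
          rw [mulF_coe, h6, mul_zero]
          rfl
        rw [h2, finrank_bot, hA, hB, finrank_S3_zero, ← h1] at hsum
        rw [hS] at hadd
        omega
      · obtain ⟨m', rfl⟩ : ∃ m', m = m' + 1 := ⟨m - 1, by omega⟩
        have hlgS : l * g ∈ S K 3 (e + 2) := by
          have := mul_mem_S hl hg
          rwa [show 1 + (e + 1) = e + 2 from by omega] at this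
        have h2 : LinearMap.range (mulF (k := i) (j := i + 1) hl (by omega)) ⊓
            LinearMap.range (mulF (k := m' + 1) (j := i + 1) hg hm) =
            LinearMap.range (mulF (k := m') (j := i + 1) hlgS (by omega)) := by
          ext f
          constructor
          · rintro ⟨⟨a, ha⟩, ⟨b, hb⟩⟩
            have h3 : g * (b : MvPolynomial (Fin 3) K) = l * (a : MvPolynomial (Fin 3) K) := by
              have h4 := congrArg Subtype.val (hb.trans ha.symm)
              exact h4
            have h5 : l ∣ (b : MvPolynomial (Fin 3) K) :=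
              (hp.dvd_or_dvd (h3 ▸ dvd_mul_right l _)).resolve_left hlg
            obtain ⟨c, hc, hbc⟩ := dvd_form hl b.2 h5
            refine ⟨⟨c, hc⟩, ?_⟩
            rw [← hb]
            ext1
            rw [mulF_coe, mulF_coe, hbc]
            ring
          · rintro ⟨c, rfl⟩
            refine ⟨⟨⟨g * (c : MvPolynomial (Fin 3) K), ?_⟩, ?_⟩,
              ⟨⟨l * (c : MvPolynomial (Fin 3) K), ?_⟩, ?_⟩⟩
            · have := mul_mem_S hg c.2
              rwa [show e + 1 + m' = i from by omega] at this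
            · ext1
              rw [mulF_coe, mulF_coe]
              ring
            · have := mul_mem_S hl c.2
              rwa [show 1 + m' = m' + 1 from by omega] at this
            · ext1
              rw [mulF_coe, mulF_coe]
              ring
        have hC := finrank_mulF (k := m') (j := i + 1) hlgS (by omega) (mul_ne_zero hl0 hg0)
        have hS' := finrank_S3 (K := K) m'
        rw [h2, hC, hA, hB, hS', ← h1] at hsum
        rw [hS] at hadd
        omega

/-- bound for the Hilbert function of an ideal containing a linear form -/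
theorem hf_le_of_linear {J : Ideal (MvPolynomial (Fin 3) K)} {l : MvPolynomial (Fin 3) K}
    (hl : l ∈ S K 3 1) (hl0 : l ≠ 0) (hlJ : l ∈ J) (j : ℕ) : hf J j ≤ j + 1 := by
  have hadd := hf_add J j
  cases j with
  | zero =>
    rw [finrank_S3_zero] at hadd
    omega
  | succ i =>
    have hS := finrank_S3 (K := K) i
    have hA := finrank_mulF (k := i) (j := i + 1) hl (by omega) hl0
    have h1 : LinearMap.range (mulF (k := i) (j := i + 1) hl (by omega)) ≤ Ik J (i + 1) := by
      rintro _ ⟨a, rfl⟩
      rw [mem_Ik, mulF_coe]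
      exact J.mul_mem_right _ hlJ
    have h2 := Submodule.finrank_mono h1
    rw [hA] at h2
    rw [hS] at hadd
    omega

/-- if the forms of degree `i + 1` in `J` are exactly the multiples of `l` -/
theorem hf_eq_of_dvd {J : Ideal (MvPolynomial (Fin 3) K)} {l : MvPolynomial (Fin 3) K}
    (hl : l ∈ S K 3 1) (hl0 : l ≠ 0) (hlJ : l ∈ J) (j : ℕ)
    (h : ∀ f ∈ S K 3 j, f ∈ J → l ∣ f) : hf J j = j + 1 := by
  have hadd := hf_add J j
  cases j with
  | zero =>
    have h1 : Ik J 0 = ⊥ := by
      rw [eq_bot_iff]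
      intro f hf
      rw [Submodule.mem_bot]
      ext1
      exact dvd_form_lt (by omega) hl f.2 (h f f.2 hf)
    rw [h1, finrank_bot, finrank_S3_zero] at hadd
    omega
  | succ i =>
    have hS := finrank_S3 (K := K) i
    have hA := finrank_mulF (k := i) (j := i + 1) hl (by omega) hl0
    have h1 : Ik J (i + 1) = LinearMap.range (mulF (k := i) (j := i + 1) hl (by omega)) := by
      ext f
      rw [mem_Ik]
      constructor
      · intro hf
        obtain ⟨c, hc, hbc⟩ := dvd_form hl f.2 (h f f.2 hf)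
        exact ⟨⟨c, hc⟩, by ext1; rw [mulF_coe, hbc]⟩
      · rintro ⟨a, rfl⟩
        rw [mulF_coe]
        exact J.mul_mem_right _ hlJ
    rw [h1, hA, hS] at hadd
    omega

theorem alg_main (I : Ideal (MvPolynomial (Fin 3) K))
    (hI : ∀ k, ∀ f ∈ I, homogeneousComponent k f ∈ I) (t : ℕ) (ht : hf I t = 1)
    (ht0 : ∀ k, t < k → hf I k = 0) (hle : ∀ j, j ≤ t → hf I j + j ≤ t + 1) (h1 : hf I 1 = 3)
    (hgen : ∀ e j, e < j → ∀ v ∈ S K 3 e, v ∉ I → (∀ a, X a * v ∈ I) → ∀ f ∈ I,
      f ∈ S K 3 (j + 1) → ∃ w : Fin 3 → MvPolynomial (Fin 3) K,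
        (∀ a, w a ∈ I ∧ w a ∈ S K 3 j) ∧ f = ∑ a, X a * w a) : False := by
  obtain ⟨J, hJ⟩ : ∃ J, J = LL I t := ⟨_, rfl⟩
  have hIJ : I ≤ J := fun f hf => by
    rw [hJ]
    exact LL_of_mem hI t hf
  have ht1 : 1 ≤ t := by
    by_contra hcon
    have := ht0 1 (by omega)
    omega
  have hmono : ∀ k, hf J k ≤ hf I k := by
    intro k
    have e1 := hf_add I k
    have e2 := hf_add J k
    have e3 : Ik I k ≤ Ik J k := fun f hf => hIJ hf
    have e4 := Submodule.finrank_mono e3
    omega
  have hsymm : ∀ j k, k + j = t → hf J j = hf J k := fun j k hjk => by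
    rw [hJ]
    exact hf_LL_symm ht hjk
  -- forms of large degree
  have hhigh : ∀ k, t < k → ∀ f ∈ S K 3 k, f ∈ I := by
    intro k hk f hf
    have e1 := ht0 k hk
    have e2 : Subsingleton (V I k) := Module.finrank_zero_iff.1 e1
    have e3 : (Ik I k).mkQ ⟨f, hf⟩ = 0 := Subsingleton.elim _ _
    rw [Submodule.mkQ_apply, Submodule.Quotient.mk_eq_zero] at e3
    exact e3
  have htop : ∀ f ∈ S K 3 t, f ∈ J → f ∈ I := fun f hf hfJ => by
    rw [hJ] at hfJ
    exact LL_top hf hfJ
  -- the linear form
  have hJ1 : hf J 1 ≤ 2 := by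
    have e1 := hle 1 ht1
    have e2 := hsymm 1 (t - 1) (by omega)
    have e3 := hmono (t - 1)
    have e4 := hle (t - 1) (by omega)
    omega
  have hS1 : finrank K (S K 3 1) = 3 := by
    have := finrank_S3 (K := K) 0
    rw [finrank_S3_zero] at this
    exact this
  have hI1 : Ik I 1 = ⊥ := by
    have e1 := hf_add I 1
    rw [← Submodule.finrank_eq_zero (R := K)]
    omega
  obtain ⟨l, hl, hlJ, hl0⟩ : ∃ l, l ∈ S K 3 1 ∧ l ∈ J ∧ l ≠ 0 := by
    have e1 := hf_add J 1
    have e2 : Ik J 1 ≠ ⊥ := by
      intro h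
      rw [h, finrank_bot] at e1
      omega
    obtain ⟨f, hf, hf0⟩ := Submodule.exists_mem_ne_zero_of_ne_bot e2
    exact ⟨f, f.2, hf, fun h => hf0 (Subtype.ext h)⟩
  have hlI : l ∉ I := by
    intro h
    have e1 : (⟨l, hl⟩ : S K 3 1) ∈ Ik I 1 := h
    rw [hI1, Submodule.mem_bot] at e1
    exact hl0 (congrArg Subtype.val e1)
  -- the largest degree in which `I` and `J` differ
  obtain ⟨e, ⟨v, hv, hvJ, hvI⟩, hemax⟩ : ∃ e, (∃ f ∈ S K 3 e, f ∈ J ∧ f ∉ I) ∧
      ∀ k, e < k → ∀ f ∈ S K 3 k, f ∈ J → f ∈ I := by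
    classical
    let P : ℕ → Prop := fun k => ∃ f ∈ S K 3 k, f ∈ J ∧ f ∉ I
    have hP1 : P 1 := ⟨l, hl, hlJ, hlI⟩
    refine ⟨Nat.findGreatest P t, Nat.findGreatest_spec (P := P) ht1 hP1, ?_⟩
    intro k hk f hf hfJ
    by_contra hfI
    by_cases hkt : k ≤ t
    · exact Nat.findGreatest_is_greatest hk hkt ⟨f, hf, hfJ, hfI⟩
    · exact hfI (hhigh k (by omega) f hf)
  have het : e < t := by
    by_contra hcon
    rcases Nat.lt_or_ge t e with h | h
    · exact hvI (hhigh e h v hv)
    · have : e = t := by omega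
      subst this
      exact hvI (htop v hv hvJ)
  have hsoc : ∀ a, X a * v ∈ I := by
    intro a
    refine hemax (e + 1) (by omega) _ ?_ (J.mul_mem_left _ hvJ)
    have := mul_mem_S (isHomogeneous_X K a) hv
    rwa [add_comm 1 e] at this
  -- the first form of `J` which is not a multiple of `l`
  have hex : ∃ j, ∃ g ∈ S K 3 j, g ∈ J ∧ ¬ l ∣ g := by
    refine ⟨t + 1, ?_⟩
    by_contra hcon
    push Not at hcon
    have e1 := hf_eq_of_dvd hl hl0 hlJ (t + 1) (fun f hf hfJ => hcon f hf hfJ)
    have e2 := hmono (t + 1)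
    have e3 := ht0 (t + 1) (by omega)
    omega
  classical
  obtain ⟨e1, ⟨g, hg, hgJ, hlg⟩, hemin⟩ : ∃ j, (∃ g ∈ S K 3 j, g ∈ J ∧ ¬ l ∣ g) ∧
      ∀ i, i < j → ∀ f ∈ S K 3 i, f ∈ J → l ∣ f := by
    refine ⟨Nat.find hex, Nat.find_spec hex, ?_⟩
    intro i hi f hf hfJ
    by_contra hcon
    exact Nat.find_min hex hi ⟨f, hf, hfJ, hcon⟩
  have he1 : 1 ≤ e1 := by
    by_contra hcon
    have h0 : e1 = 0 := by omega
    subst h0
    have e2 : hf J 0 = hf J t := hsymm 0 t (by omega)
    have e3 : hf J t = 1 := by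
      have a1 := hf_add J t
      have a2 := hf_add I t
      have a3 : Ik J t = Ik I t := by
        ext f
        exact ⟨fun h => htop f f.2 h, fun h => hIJ h⟩
      rw [a3] at a1
      omega
    have e4 := hf_add J 0
    rw [finrank_S3_zero] at e4
    have e5 : Ik J 0 = ⊥ := by
      rw [← Submodule.finrank_eq_zero (R := K)]
      omega
    have e6 : (⟨g, hg⟩ : S K 3 0) ∈ Ik J 0 := hgJ
    rw [e5, Submodule.mem_bot] at e6
    have e7 : g = 0 := congrArg Subtype.val e6
    rw [e7] at hlg
    exact hlg (dvd_zero l)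
  have he1t : e1 ≤ t + 1 := by
    by_contra hcon
    have e2 := hf_eq_of_dvd hl hl0 hlJ (t + 1) (hemin (t + 1) (by omega))
    have e3 := hmono (t + 1)
    have e4 := ht0 (t + 1) (by omega)
    omega
  obtain ⟨d, rfl⟩ : ∃ d, e1 = d + 1 := ⟨e1 - 1, by omega⟩
  have hsmall : ∀ i, i ≤ d → hf J i = i + 1 := fun i hi =>
    hf_eq_of_dvd hl hl0 hlJ i (hemin i (by omega))
  have hspan := hf_span hl hl0 hg hlg
  -- the critical degree
  obtain ⟨j0, hj0⟩ : ∃ j0, j0 + d = t := ⟨t - d, by omega⟩
  have hj0e : j0 ≤ e := by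
    by_contra hcon
    have a1 : hf J j0 = d + 1 := by
      rw [hsymm j0 d (by omega)]
      exact hsmall d le_rfl
    have a2 : d ≤ j0 := by
      have := hf_le_of_linear hl hl0 hlJ j0
      omega
    have a3 := hspan j0 a2
    have a4 := hspan (j0 + 1) (by omega)
    have hQJ : Ideal.span {l, g} ≤ J := by
      rw [Ideal.span_le]
      rintro f (rfl | rfl)
      · exact hlJ
      · exact hgJ
    have a5 : Ik (Ideal.span {l, g}) j0 = Ik J j0 := by
      apply Submodule.eq_of_le_of_finrank_eq
      · exact fun f hf => hQJ hf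
      · have b1 := hf_add (Ideal.span {l, g}) j0
        have b2 := hf_add J j0
        omega
    have a6 : Ik J (j0 + 1) ≤ Ik (Ideal.span {l, g}) (j0 + 1) := by
      intro f hf
      have c1 : (f : MvPolynomial (Fin 3) K) ∈ I := hemax (j0 + 1) (by omega) f f.2 hf
      obtain ⟨w, hw, hfw⟩ := hgen e j0 (by omega) v hv hvI hsoc f c1 f.2
      rw [mem_Ik, hfw]
      refine Ideal.sum_mem _ fun a _ => Ideal.mul_mem_left _ _ ?_
      have c2 : (⟨w a, (hw a).2⟩ : S K 3 j0) ∈ Ik J j0 := hIJ (hw a).1
      rw [← a5] at c2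
      exact c2
    have a7 := Submodule.finrank_mono a6
    have b1 := hf_add (Ideal.span {l, g}) (j0 + 1)
    have b2 := hf_add J (j0 + 1)
    have a8 : hf J (j0 + 1) = d := by
      rcases Nat.eq_zero_or_pos d with hd | hd
      · subst hd
        have c1 := hmono (j0 + 1)
        have c2 := ht0 (j0 + 1) (by omega)
        omega
      · rw [hsymm (j0 + 1) (d - 1) (by omega), hsmall (d - 1) (by omega)]
        omega
    omega
  -- comparison in degree `e`
  have a1 : hf J e = t - e + 1 := by
    rw [hsymm e (t - e) (by omega)]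
    exact hsmall (t - e) (by omega)
  have a2 := hle e het.le
  have a3 : Ik I e < Ik J e := by
    refine lt_of_le_of_ne (fun f hf => hIJ hf) ?_
    intro h
    have b1 : (⟨v, hv⟩ : S K 3 e) ∈ Ik J e := hvJ
    rw [← h] at b1
    exact hvI b1
  have a4 := Submodule.finrank_lt_finrank_of_lt a3
  have a5 := hf_add I e
  have a6 := hf_add J e
  omega

/-- **Main theorem.** -/
theorem main3 (I : Ideal (MvPolynomial (Fin 3) K))
    (hI : ∀ k, ∀ f ∈ I, homogeneousComponent k f ∈ I) (s : ℕ) (hs : ∀ k, s < k → hf I k = 0)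
    (h0 : hf I 0 = 1) (h1 : hf I 1 = 3) : ¬ T1zero I := by
  intro hT
  have h2 := hf_ineq I hI s (fun k hk => Module.finrank_zero_iff.1 (hs k hk)) hT
  obtain ⟨t, ht, ht0, hle⟩ := num_main (hf I) s hs h0 h1 h2
  exact alg_main I hI t ht ht0 hle h1 fun e j hej v hv hvI hsoc f hfI hf =>
    no_gen I hI hT hej hv hvI hsoc f hfI hf

end Pool.Agent.H12.Rig
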