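import Mathlib
import Pool.Agent.H12.Rig.Alg

/-!
# Rigid local algebras: homogeneous ideals in three variables (helper12)
-/

set_option autoImplicit false

namespace Pool.Agent.H12.Rig

open Module MvPolynomial

variable {K : Type*} [Field K] {n : ℕ}

/-- a form of degree `k ≥ N` lies in the `N`-th power of the ideal of the variables -/
theorem form_mem_pow {N k : ℕ} (hk : N ≤ k) {f : MvPolynomial (Fin n) K} (hf : f ∈ S K n k) :
    f ∈ Ideal.span (Set.range (X : Fin n → MvPolynomial (Fin n) K)) ^ N := by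
  have h := (mem_pow_idealOfVars_iff (σ := Fin n) (R := K) N f).2
  apply h
  intro x hx
  have h2 := (mem_homogeneousSubmodule k f).1 hf
  by_contra hcon
  have h3 : coeff x f = 0 := h2.coeff_eq_zero (by omega)
  rw [MvPolynomial.mem_support_iff] at hx
  exact hx h3

/-- a form of degree `k < N` in the `N`-th power is zero -/
theorem form_pow_zero {N k : ℕ} (hk : k < N) {f : MvPolynomial (Fin n) K} (hf : f ∈ S K n k)
    (h : f ∈ Ideal.span (Set.range (X : Fin n → MvPolynomial (Fin n) K)) ^ N) : f = 0 := by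
  have h1 := (mem_pow_idealOfVars_iff (σ := Fin n) (R := K) N f).1 h
  ext x
  rw [coeff_zero]
  by_contra hcon
  have h2 := h1 x (MvPolynomial.mem_support_iff.2 hcon)
  have h3 := ((mem_homogeneousSubmodule k f).1 hf).coeff_eq_zero (d := x) (by omega)
  exact hcon h3

theorem three (I : Ideal (MvPolynomial (Fin 3) K))
    (hI : ∀ f ∈ I, ∀ k, homogeneousComponent k f ∈ I)
    (hN : ∃ N, Ideal.span (Set.range (X : Fin 3 → MvPolynomial (Fin 3) K)) ^ N ≤ I)
    (h2 : I ≤ Ideal.span (Set.range (X : Fin 3 → MvPolynomial (Fin 3) K)) ^ 2) : ¬ T1zero I := by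
  obtain ⟨N, hN⟩ := hN
  have hzero : ∀ k, N ≤ k → hf I k = 0 := by
    intro k hk
    have h3 := hf_add I k
    have h4 : Ik I k = ⊤ := by
      rw [eq_top_iff]
      intro f _
      exact hN (form_mem_pow hk f.2)
    rw [h4, finrank_top] at h3
    omega
  have hbot : ∀ k, k < 2 → Ik I k = ⊥ := by
    intro k hk
    rw [eq_bot_iff]
    intro f hf
    rw [Submodule.mem_bot]
    ext1
    exact form_pow_zero hk f.2 (h2 hf)
  refine main3 I (fun k f hf => hI f hf k) N (fun k hk => hzero k hk.le) ?_ ?_
  · have h3 := hf_add I 0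
    rw [hbot 0 (by omega), finrank_bot, finrank_S3_zero] at h3
    omega
  · have h3 := hf_add I 1
    have h4 : finrank K (S K 3 1) = finrank K (S K 3 0) + (0 + 2) := finrank_S3 (K := K) 0
    rw [finrank_S3_zero] at h4
    rw [hbot 1 (by omega), finrank_bot] at h3
    omega

end Pool.Agent.H12.Rig
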