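import Mathlib
import Pool.Agent.H12.Rig.Final

/-!
# Rigid local algebras: ideals between two consecutive powers of the maximal ideal (helper12)
-/

set_option autoImplicit false

namespace Pool.Agent.H12.Rig

open Module MvPolynomial

variable {K : Type*} [Field K] {n : ℕ} {I : Ideal (MvPolynomial (Fin n) K)}

/-- every element of a homogeneous ideal is a sum of forms in it -/
theorem ideal_induction (hI : ∀ k, ∀ f ∈ I, homogeneousComponent k f ∈ I) {p : I → Prop}
    (h0 : ∀ k (f : I), (f : MvPolynomial (Fin n) K) ∈ S K n k → p f)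
    (hadd : ∀ f g, p f → p g → p (f + g)) (f : I) : p f := by
  have h1 : f = ∑ k ∈ Finset.range ((f : MvPolynomial (Fin n) K).totalDegree + 1),
      (⟨homogeneousComponent k (f : MvPolynomial (Fin n) K), hI k f f.2⟩ : I) := by
    ext1
    rw [AddSubmonoidClass.coe_finsetSum]
    exact eq_sum_comp (f : MvPolynomial (Fin n) K)
  rw [h1]
  refine Finset.sum_induction _ p hadd (h0 0 0 (Submodule.zero_mem _)) fun k _ => ?_
  exact h0 k _ (homogeneousComponent_mem k _)

/-- a homogeneous map of degree `-1` which comes from a derivation comes from a constant one -/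
theorem der_const (hI : ∀ k, ∀ f ∈ I, homogeneousComponent k f ∈ I)
    {φ : I →ₗ[MvPolynomial (Fin n) K] (MvPolynomial (Fin n) K ⧸ I)} (hneg : NegHom I 1 φ)
    (hder : DerOf I φ) : ∃ c : Fin n → K, ∀ f : I,
      φ f = ∑ b, c b • Ideal.Quotient.mk I (pderiv b (f : MvPolynomial (Fin n) K)) := by
  obtain ⟨α, hα⟩ := hder
  choose β hβ using fun b => Ideal.Quotient.mk_surjective (α b)
  refine ⟨fun b => coeff 0 (β b), fun f => ?_⟩
  refine ideal_induction hI (p := fun f => φ f = ∑ b, coeff 0 (β b) •
    Ideal.Quotient.mk I (pderiv b (f : MvPolynomial (Fin n) K))) ?_ ?_ f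
  · intro k f hf
    cases k with
    | zero =>
      rw [(hneg 0 f hf).1 (by omega)]
      symm
      refine Finset.sum_eq_zero fun b _ => ?_
      rw [form_zero hf, pderiv_C, map_zero, smul_zero]
    | succ k =>
      obtain ⟨g, hg, hφ⟩ := (hneg (k + 1) f hf).2 k rfl
      have h1 := hα f
      have h2 : ∑ i : Fin n, Ideal.Quotient.mk I (pderiv i (f : MvPolynomial (Fin n) K)) * α i =
          Ideal.Quotient.mk I (∑ i, pderiv i (f : MvPolynomial (Fin n) K) * β i) := by
        rw [map_sum]
        refine Finset.sum_congr rfl fun i _ => ?_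
        rw [map_mul, hβ]
      rw [h2, hφ, Ideal.Quotient.eq] at h1
      have h3 := hI k _ h1
      rw [map_sub, comp_self hg, map_sum] at h3
      have h4 : ∑ i, homogeneousComponent k (pderiv i (f : MvPolynomial (Fin n) K) * β i) =
          ∑ i, coeff 0 (β i) • pderiv i (f : MvPolynomial (Fin n) K) := by
        refine Finset.sum_congr rfl fun i _ => ?_
        rw [comp_mul_mem_S (pderiv_mem_S i k hf)]
      rw [h4] at h3
      rw [hφ, Ideal.Quotient.eq.2 h3, map_sum]
      rfl
  · intro f g hf hg
    rw [map_add, hf, hg, ← Finset.sum_add_distrib]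
    refine Finset.sum_congr rfl fun b _ => ?_
    rw [← smul_add, ← map_add, ← map_add]
    rfl

/-- a homogeneous map of degree `0` which comes from a derivation comes from a linear one -/
theorem der_lin (hI : ∀ k, ∀ f ∈ I, homogeneousComponent k f ∈ I) (hI0 : Ik I 0 = ⊥)
    {φ : I →ₗ[MvPolynomial (Fin n) K] (MvPolynomial (Fin n) K ⧸ I)}
    (hdeg : ∀ (k : ℕ) (f : I), (f : MvPolynomial (Fin n) K) ∈ S K n k →
      ∃ g ∈ S K n k, φ f = Ideal.Quotient.mk I g)
    (hder : DerOf I φ) : ∃ c : Fin n → Fin n → K, ∀ f : I,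
      φ f = ∑ b, ∑ j, c b j •
        Ideal.Quotient.mk I (X j * pderiv b (f : MvPolynomial (Fin n) K)) := by
  obtain ⟨α, hα⟩ := hder
  choose β hβ using fun b => Ideal.Quotient.mk_surjective (α b)
  have hlin : ∀ b, ∃ c : Fin n → K, homogeneousComponent 1 (β b) = ∑ j, c j • X j := by
    intro b
    have h1 : homogeneousComponent 1 (β b) ∈ S K n 1 := homogeneousComponent_mem 1 _
    rw [S_eq, homogeneousSubmodule_one_eq_span_X, Submodule.mem_span_range_iff_exists_fun] at h1
    obtain ⟨c, hc⟩ := h1
    exact ⟨c, hc.symm⟩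
  choose c hc using hlin
  refine ⟨c, fun f => ?_⟩
  refine ideal_induction hI (p := fun f => φ f = ∑ b, ∑ j, c b j •
    Ideal.Quotient.mk I (X j * pderiv b (f : MvPolynomial (Fin n) K))) ?_ ?_ f
  · intro k f hf
    cases k with
    | zero =>
      have h1 : (⟨(f : MvPolynomial (Fin n) K), hf⟩ : S K n 0) ∈ Ik I 0 := f.2
      rw [hI0, Submodule.mem_bot] at h1
      have h2 : (f : MvPolynomial (Fin n) K) = 0 := congrArg Subtype.val h1
      have h3 : f = 0 := Subtype.ext h2
      rw [h3, map_zero]
      symm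
      refine Finset.sum_eq_zero fun b _ => Finset.sum_eq_zero fun j _ => ?_
      simp
    | succ k =>
      obtain ⟨g, hg, hφ⟩ := hdeg (k + 1) f hf
      have h1 := hα f
      have h2 : ∑ i : Fin n, Ideal.Quotient.mk I (pderiv i (f : MvPolynomial (Fin n) K)) * α i =
          Ideal.Quotient.mk I (∑ i, pderiv i (f : MvPolynomial (Fin n) K) * β i) := by
        rw [map_sum]
        refine Finset.sum_congr rfl fun i _ => ?_
        rw [map_mul, hβ]
      rw [h2, hφ, Ideal.Quotient.eq] at h1
      have h3 := hI (k + 1) _ h1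
      rw [map_sub, comp_self hg, map_sum] at h3
      have h4 : ∑ i, homogeneousComponent (k + 1) (pderiv i (f : MvPolynomial (Fin n) K) * β i) =
          ∑ b, ∑ j, c b j • (X j * pderiv b (f : MvPolynomial (Fin n) K)) := by
        refine Finset.sum_congr rfl fun i _ => ?_
        rw [mul_comm, add_comm k 1, comp_mul_form (pderiv_mem_S i k hf), hc, Finset.sum_mul]
        refine Finset.sum_congr rfl fun j _ => ?_
        rw [smul_mul_assoc]
      rw [h4] at h3
      rw [hφ, Ideal.Quotient.eq.2 h3, map_sum]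
      refine Finset.sum_congr rfl fun b _ => ?_
      rw [map_sum]
      rfl
  · intro f g hf hg
    rw [map_add, hf, hg, ← Finset.sum_add_distrib]
    refine Finset.sum_congr rfl fun b _ => ?_
    rw [← Finset.sum_add_distrib]
    refine Finset.sum_congr rfl fun j _ => ?_
    rw [← smul_add, ← map_add, ← mul_add, ← map_add]
    rfl

/-- construction of linear maps on an ideal which is zero in degree `t - 1` -/
theorem constr (hI : ∀ k, ∀ f ∈ I, homogeneousComponent k f ∈ I) (t : ℕ)
    (hlow : ∀ f ∈ I, ∀ a, homogeneousComponent t (X a * f) = 0)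
    (α : S K n t →ₗ[K] MvPolynomial (Fin n) K ⧸ I)
    (β : S K n (t + 1) →ₗ[K] MvPolynomial (Fin n) K ⧸ I)
    (h1 : ∀ a (f : S K n t), f ∈ Ik I t → Ideal.Quotient.mk I (X a) * α f = β (mulX a t f))
    (h2 : ∀ a g, Ideal.Quotient.mk I (X a) * β g = 0) :
    ∃ φ : I →ₗ[MvPolynomial (Fin n) K] (MvPolynomial (Fin n) K ⧸ I), ∀ f : I,
      φ f = α ⟨homogeneousComponent t (f : MvPolynomial (Fin n) K),
          homogeneousComponent_mem t _⟩ +
        β ⟨homogeneousComponent (t + 1) (f : MvPolynomial (Fin n) K),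
          homogeneousComponent_mem (t + 1) _⟩ := by
  let ct : MvPolynomial (Fin n) K →ₗ[K] S K n t :=
    LinearMap.codRestrict (S K n t) (homogeneousComponent t) fun f => homogeneousComponent_mem t f
  let cu : MvPolynomial (Fin n) K →ₗ[K] S K n (t + 1) :=
    LinearMap.codRestrict (S K n (t + 1)) (homogeneousComponent (t + 1))
      fun f => homogeneousComponent_mem (t + 1) f
  let ψ : MvPolynomial (Fin n) K →ₗ[K] MvPolynomial (Fin n) K ⧸ I := α ∘ₗ ct + β ∘ₗ cu
  have hψ : ∀ f, ψ f = α (ct f) + β (cu f) := fun f => rfl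
  have hX : ∀ a f, f ∈ I → ψ (X a * f) = Ideal.Quotient.mk I (X a) * ψ f := by
    intro a f hf
    have e1 : ct (X a * f) = 0 := by
      ext1
      exact hlow f hf a
    have e2 : cu (X a * f) = mulX a t (ct f) := by
      ext1
      show homogeneousComponent (t + 1) (X a * f) = X a * homogeneousComponent t f
      rw [mul_comm (X a) f, comp_mul_form (j := 1) (isHomogeneous_X K a), mul_comm]
    rw [hψ, hψ, e1, e2, map_zero, zero_add, mul_add, h2, add_zero, h1 a (ct f) (hI t f hf)]
  have hlin : ∀ p g, g ∈ I → ψ (p * g) = Ideal.Quotient.mk I p * ψ g := by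
    intro p
    induction p using MvPolynomial.induction_on with
    | C c =>
      intro g hg
      rw [← MvPolynomial.smul_eq_C_mul, map_smul]
      obtain ⟨r, hr⟩ := Ideal.Quotient.mk_surjective (ψ g)
      rw [← hr, ← map_mul, ← MvPolynomial.smul_eq_C_mul]
      rfl
    | add p q hp hq =>
      intro g hg
      rw [add_mul, map_add, hp g hg, hq g hg, map_add, add_mul]
    | mul_X p a hp =>
      intro g hg
      rw [mul_assoc, hp _ (I.mul_mem_left _ hg), hX a g hg, map_mul, mul_assoc]
  exact ⟨{ toFun := fun f => ψ f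
           map_add' := fun f g => map_add ψ _ _
           map_smul' := fun g f => by
             show ψ (g * (f : MvPolynomial (Fin n) K)) = g • ψ f
             rw [hlin g f f.2]
             rfl }, fun f => rfl⟩

/-- derivations of degree `-1` as functions on the ideal -/
noncomputable def D1 (I : Ideal (MvPolynomial (Fin n) K)) :
    (Fin n → K) →ₗ[K] (I → MvPolynomial (Fin n) K ⧸ I) :=
  LinearMap.pi fun f => ∑ b, LinearMap.toSpanSingleton K _
    (Ideal.Quotient.mk I (pderiv b (f : MvPolynomial (Fin n) K))) ∘ₗ LinearMap.proj b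

theorem D1_apply (c : Fin n → K) (f : I) :
    D1 I c f = ∑ b, c b • Ideal.Quotient.mk I (pderiv b (f : MvPolynomial (Fin n) K)) := by
  show (∑ b, LinearMap.toSpanSingleton K _ (Ideal.Quotient.mk I
    (pderiv b (f : MvPolynomial (Fin n) K))) ∘ₗ LinearMap.proj b) c = _
  rw [LinearMap.sum_apply]
  rfl

/-- counting: a family of maps of degree `-1` parametrised injectively by `W` -/
theorem count_neg {W : Type*} [AddCommGroup W] [Module K W]
    (Φ : W →ₗ[K] (I → MvPolynomial (Fin n) K ⧸ I)) (hinj : Function.Injective Φ)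
    (h : ∀ w, ∃ c : Fin n → K, ∀ f : I,
      Φ w f = ∑ b, c b • Ideal.Quotient.mk I (pderiv b (f : MvPolynomial (Fin n) K))) :
    finrank K W ≤ n := by
  have h1 : ∀ w, Φ w ∈ LinearMap.range (D1 I) := by
    intro w
    obtain ⟨c, hc⟩ := h w
    refine ⟨c, ?_⟩
    funext f
    rw [D1_apply, hc]
  have h2 : Function.Injective (Φ.codRestrict _ h1) := fun w w' hw =>
    hinj (congrArg Subtype.val hw)
  have h3 := LinearMap.finrank_le_finrank_of_injective h2
  have h4 := LinearMap.finrank_range_le (D1 I)
  rw [Module.finrank_fin_fun] at h4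
  omega

/-- derivations of degree `0` as functions on the ideal -/
noncomputable def D0 (I : Ideal (MvPolynomial (Fin n) K)) :
    (Fin n → Fin n → K) →ₗ[K] (I → MvPolynomial (Fin n) K ⧸ I) :=
  LinearMap.pi fun f => ∑ b, ∑ j, LinearMap.toSpanSingleton K _
    (Ideal.Quotient.mk I (X j * pderiv b (f : MvPolynomial (Fin n) K))) ∘ₗ
      LinearMap.proj j ∘ₗ LinearMap.proj b

theorem D0_apply (c : Fin n → Fin n → K) (f : I) :
    D0 I c f = ∑ b, ∑ j, c b j •
      Ideal.Quotient.mk I (X j * pderiv b (f : MvPolynomial (Fin n) K)) := by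
  show (∑ b, ∑ j, LinearMap.toSpanSingleton K _ (Ideal.Quotient.mk I
    (X j * pderiv b (f : MvPolynomial (Fin n) K))) ∘ₗ LinearMap.proj j ∘ₗ
      LinearMap.proj b : (Fin n → Fin n → K) →ₗ[K] _) c = _
  rw [LinearMap.sum_apply]
  refine Finset.sum_congr rfl fun b _ => ?_
  rw [LinearMap.sum_apply]
  rfl

/-- the Euler derivation is zero on the ideal -/
theorem D0_euler (hn : 0 < n) (hI : ∀ k, ∀ f ∈ I, homogeneousComponent k f ∈ I) :
    finrank K (LinearMap.range (D0 I)) + 1 ≤ n * n := by
  have h1 := LinearMap.finrank_range_add_finrank_ker (D0 I)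
  have h2 : finrank K (Fin n → Fin n → K) = n * n := by
    rw [Module.finrank_pi_fintype]
    simp
  have h3 : (fun b j => if b = j then (1 : K) else 0 : Fin n → Fin n → K) ∈
      LinearMap.ker (D0 I) := by
    rw [LinearMap.mem_ker]
    funext f
    refine ideal_induction hI (p := fun f => D0 I (fun b j => if b = j then (1 : K) else 0) f =
      (0 : I → MvPolynomial (Fin n) K ⧸ I) f) ?_ ?_ f
    · intro k f hf
      rw [D0_apply]
      have e1 : ∀ b : Fin n, ∑ j, (if b = j then (1 : K) else 0) •
          Ideal.Quotient.mk I (X j * pderiv b (f : MvPolynomial (Fin n) K)) =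
          Ideal.Quotient.mk I (X b * pderiv b (f : MvPolynomial (Fin n) K)) := by
        intro b
        rw [Finset.sum_eq_single b]
        · rw [if_pos rfl, one_smul]
        · intro j _ hj
          rw [if_neg (fun h => hj h.symm), zero_smul]
        · intro h
          exact absurd (Finset.mem_univ b) h
      rw [Finset.sum_congr rfl fun b _ => e1 b, ← map_sum]
      have e2 := ((mem_homogeneousSubmodule k _).1 hf).sum_X_mul_pderiv
      rw [e2]
      show Ideal.Quotient.mk I (k • (f : MvPolynomial (Fin n) K)) = 0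
      exact Ideal.Quotient.eq_zero_iff_mem.2 (I.nsmul_mem f.2 k)
    · intro f g hf hg
      rw [D0_apply] at hf hg ⊢
      have hf' : ∑ b, ∑ j, (if b = j then (1 : K) else 0) •
          Ideal.Quotient.mk I (X j * pderiv b (f : MvPolynomial (Fin n) K)) = 0 := hf
      have hg' : ∑ b, ∑ j, (if b = j then (1 : K) else 0) •
          Ideal.Quotient.mk I (X j * pderiv b (g : MvPolynomial (Fin n) K)) = 0 := hg
      show ∑ b, ∑ j, (if b = j then (1 : K) else 0) •
          Ideal.Quotient.mk I (X j * pderiv b ((f : MvPolynomial (Fin n) K) +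
            (g : MvPolynomial (Fin n) K))) = 0
      rw [← add_zero (0 : MvPolynomial (Fin n) K ⧸ I)]
      nth_rewrite 1 [← hf']
      rw [← hg', ← Finset.sum_add_distrib]
      refine Finset.sum_congr rfl fun b _ => ?_
      rw [← Finset.sum_add_distrib]
      refine Finset.sum_congr rfl fun j _ => ?_
      rw [← smul_add, ← map_add, ← mul_add, ← map_add]
  have h4 : LinearMap.ker (D0 I) ≠ ⊥ := by
    intro h
    rw [h, Submodule.mem_bot] at h3
    have h5 := congrFun (congrFun h3 ⟨0, hn⟩) ⟨0, hn⟩
    simp at h5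
  have h5 : 0 < finrank K (LinearMap.ker (D0 I)) := by
    rw [Nat.pos_iff_ne_zero]
    intro h
    exact h4 (Submodule.finrank_eq_zero.1 h)
  omega

end Pool.Agent.H12.Rig
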