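import Mathlib

/-!
# Rigid local algebras: nonnegative gradings with one variable of weight zero (helper12)
-/

set_option autoImplicit false

namespace Pool.Agent.H12.Rig

open MvPolynomial

variable {K : Type*} [Field K] {n : ℕ}

theorem wcomp_mul {w : Fin n → ℕ} {j : ℕ} {g : MvPolynomial (Fin n) K}
    (hg : IsWeightedHomogeneous w g j) (hj : j = 0) (k : ℕ) (f : MvPolynomial (Fin n) K) :
    weightedHomogeneousComponent w k (g * f) = g * weightedHomogeneousComponent w k f := by
  subst hj
  have h1 : f = ∑ᶠ m, weightedHomogeneousComponent w m f :=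
    (sum_weightedHomogeneousComponent w f).symm
  have hfin := weightedHomogeneousComponent_finsupp (w := w) f
  rw [finsum_eq_sum _ hfin] at h1
  conv_lhs => rw [h1, Finset.mul_sum, map_sum]
  have h2 : ∀ m, weightedHomogeneousComponent w k (g * weightedHomogeneousComponent w m f) =
      if k = m then g * weightedHomogeneousComponent w m f else 0 := by
    intro m
    have h3 : IsWeightedHomogeneous w (g * weightedHomogeneousComponent w m f) (0 + m) :=
      hg.mul (weightedHomogeneousComponent_isWeightedHomogeneous m f)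
    rw [zero_add] at h3
    exact weightedHomogeneousComponent_of_mem h3
  rw [Finset.sum_congr rfl fun m _ => h2 m]
  by_cases hk : weightedHomogeneousComponent w k f = 0
  · rw [hk, mul_zero]
    refine Finset.sum_eq_zero fun m _ => ?_
    by_cases hkm : k = m
    · subst hkm
      rw [if_pos rfl, hk, mul_zero]
    · rw [if_neg hkm]
  · rw [Finset.sum_ite_eq]
    rw [if_pos]
    rw [Set.Finite.mem_toFinset]
    exact hk

theorem weight_le (w : Fin n → ℕ) (d : Fin n →₀ ℕ) :
    Finsupp.weight w d ≤ (∑ i, w i) * d.degree := by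
  rw [Finsupp.weight_apply, Finsupp.sum_fintype _ _ (fun i => by simp), Finsupp.degree_eq_sum,
    Finset.mul_sum]
  refine Finset.sum_le_sum fun i _ => ?_
  rw [smul_eq_mul, mul_comm]
  exact Nat.mul_le_mul_right _ (Finset.single_le_sum (f := w) (fun j _ => Nat.zero_le _)
    (Finset.mem_univ i))

/-- the monomials of weight zero are powers of the variable of weight zero -/
theorem weight_zero_eq {w : Fin n → ℕ} {i0 : Fin n} (hw : ∀ j, j ≠ i0 → 0 < w j)
    {d : Fin n →₀ ℕ} (hd : Finsupp.weight w d = 0) : d = Finsupp.single i0 (d i0) := by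
  ext j
  by_cases hj : j = i0
  · subst hj
    rw [Finsupp.single_eq_same]
  · rw [Finsupp.single_eq_of_ne hj]
    by_contra hcon
    have h1 := Finsupp.le_weight_of_ne_zero' (w := w) hcon
    have h2 := hw j hj
    omega

variable {I : Ideal (MvPolynomial (Fin n) K)} {w : Fin n → ℕ} {i0 : Fin n} {q : ℕ}

theorem pow_mem_of_le (hq : X i0 ^ q ∈ I) {k : ℕ} (hk : q ≤ k) : X i0 ^ k ∈ I := by
  obtain ⟨m, rfl⟩ := Nat.exists_eq_add_of_le hk
  rw [pow_add]
  exact I.mul_mem_right _ hq

/-- the low pure coefficients of elements of `I` vanish -/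
theorem low_coeff (hw0 : w i0 = 0) (hw : ∀ j, j ≠ i0 → 0 < w j)
    (hI : ∀ f ∈ I, ∀ k, weightedHomogeneousComponent w k f ∈ I) (hq : X i0 ^ q ∈ I)
    (hqm : ∀ j, j < q → X i0 ^ j ∉ I) {f : MvPolynomial (Fin n) K} (hf : f ∈ I) (j : ℕ)
    (hj : j < q) : coeff (Finsupp.single i0 j) f = 0 := by
  classical
  induction j using Nat.strong_induction_on with
  | _ a ih =>
    by_contra hcon
    have h0 := I.mul_mem_left (X i0 ^ (q - 1 - a)) (hI f hf 0)
    rw [weightedHomogeneousComponent_apply, Finset.mul_sum] at h0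
    have hmem : Finsupp.single i0 a ∈ f.support.filter fun d => Finsupp.weight w d = 0 := by
      rw [Finset.mem_filter, MvPolynomial.mem_support_iff]
      refine ⟨hcon, ?_⟩
      rw [Finsupp.weight_single, hw0, smul_zero]
    rw [← Finset.add_sum_erase _ _ hmem] at h0
    have hrest : ∑ d ∈ (f.support.filter fun d => Finsupp.weight w d = 0).erase
        (Finsupp.single i0 a), X i0 ^ (q - 1 - a) * monomial d (coeff d f) ∈ I := by
      refine I.sum_mem fun d hd => ?_
      rw [Finset.mem_erase, Finset.mem_filter, MvPolynomial.mem_support_iff] at hd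
      obtain ⟨hda, hdc, hd0⟩ := hd
      have h1 := weight_zero_eq hw hd0
      rw [h1] at hdc hda ⊢
      have h2 : a < d i0 := by
        by_contra hle
        rcases Nat.lt_or_ge (d i0) a with h | h
        · exact hdc (ih (d i0) h (by omega))
        · have : d i0 = a := by omega
          rw [this] at hda
          exact hda rfl
      have h3 : (monomial (Finsupp.single i0 (d i0)) (coeff (Finsupp.single i0 (d i0)) f) :
          MvPolynomial (Fin n) K) = C (coeff (Finsupp.single i0 (d i0)) f) * X i0 ^ (d i0) := by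
        rw [X_pow_eq_monomial, C_mul_monomial, mul_one]
      rw [h3, mul_left_comm, ← pow_add]
      exact I.mul_mem_left _ (pow_mem_of_le hq (by omega))
    have h4 := (I.add_mem_iff_left hrest).1 h0
    have h3 : (monomial (Finsupp.single i0 a) (coeff (Finsupp.single i0 a) f) :
        MvPolynomial (Fin n) K) = C (coeff (Finsupp.single i0 a) f) * X i0 ^ a := by
      rw [X_pow_eq_monomial, C_mul_monomial, mul_one]
    rw [h3, mul_left_comm, ← pow_add] at h4
    have h5 : q - 1 - a + a = q - 1 := by omega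
    rw [h5] at h4
    have h6 := I.mul_mem_left (C (coeff (Finsupp.single i0 a) f)⁻¹) h4
    rw [← mul_assoc, ← C_mul, inv_mul_cancel₀ hcon, C_1, one_mul] at h6
    exact hqm (q - 1) (by omega) h6

/-- **Torus obstruction.** -/
theorem torus (hw0 : w i0 = 0) (hw : ∀ j, j ≠ i0 → 0 < w j)
    (hI : ∀ f ∈ I, ∀ k, weightedHomogeneousComponent w k f ∈ I)
    (hN : ∃ N : ℕ, Ideal.span (Set.range (X : Fin n → MvPolynomial (Fin n) K)) ^ N ≤ I)
    (hx : (X i0 : MvPolynomial (Fin n) K) ∉ I) :
    ∃ φ : I →ₗ[MvPolynomial (Fin n) K] (MvPolynomial (Fin n) K ⧸ I),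
      ¬ ∃ a : Fin n → MvPolynomial (Fin n) K ⧸ I, ∀ f : I,
        φ f = ∑ i : Fin n,
          Ideal.Quotient.mk I (pderiv i (f : MvPolynomial (Fin n) K)) * a i := by
  classical
  obtain ⟨N, hN⟩ := hN
  have hone : (1 : MvPolynomial (Fin n) K) ∉ I := by
    intro h
    apply hx
    have := I.mul_mem_left (X i0) h
    rwa [mul_one] at this
  -- the exponent `q`
  have hexq : ∃ k, (X i0 : MvPolynomial (Fin n) K) ^ k ∈ I :=
    ⟨N, hN (Ideal.pow_mem_pow (Ideal.subset_span (Set.mem_range_self i0)) N)⟩
  obtain ⟨q, hq, hqm⟩ : ∃ q, (X i0 : MvPolynomial (Fin n) K) ^ q ∈ I ∧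
      ∀ j, j < q → (X i0 : MvPolynomial (Fin n) K) ^ j ∉ I :=
    ⟨Nat.find hexq, Nat.find_spec hexq, fun j hj => Nat.find_min hexq hj⟩
  have hq2 : 2 ≤ q := by
    by_contra hcon
    have h1 : q = 0 ∨ q = 1 := by omega
    rcases h1 with rfl | rfl
    · rw [pow_zero] at hq
      exact hone hq
    · rw [pow_one] at hq
      exact hx hq
  -- the top weight
  have hbig : ∀ k, (∑ i, w i) * N < k → ∀ g : MvPolynomial (Fin n) K,
      IsWeightedHomogeneous w g k → g ∈ I := by
    intro k hk g hg
    apply hN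
    apply (mem_pow_idealOfVars_iff (σ := Fin n) (R := K) N g).2
    intro d hd
    rw [MvPolynomial.mem_support_iff] at hd
    have h1 := hg hd
    have h2 := weight_le w d
    by_contra hcon
    have h3 : (∑ i, w i) * d.degree ≤ (∑ i, w i) * N := Nat.mul_le_mul_left _ (by omega)
    omega
  obtain ⟨e, ⟨g0, hg0, hg0I⟩, hemax⟩ : ∃ e, (∃ g : MvPolynomial (Fin n) K,
      IsWeightedHomogeneous w g e ∧ g ∉ I) ∧
      ∀ k, e < k → ∀ g : MvPolynomial (Fin n) K, IsWeightedHomogeneous w g k → g ∈ I := by
    let P : ℕ → Prop := fun k => ∃ g : MvPolynomial (Fin n) K, IsWeightedHomogeneous w g k ∧ g ∉ I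
    have hP0 : P 0 := ⟨1, isWeightedHomogeneous_one K w, hone⟩
    refine ⟨Nat.findGreatest P ((∑ i, w i) * N), Nat.findGreatest_spec (P := P) (Nat.zero_le _) hP0,
      ?_⟩
    intro k hk g hg
    by_contra hgI
    by_cases hkt : k ≤ (∑ i, w i) * N
    · exact Nat.findGreatest_is_greatest hk hkt ⟨g, hg, hgI⟩
    · exact hgI (hbig k (by omega) g hg)
  have hX0 : IsWeightedHomogeneous w (X i0 ^ (q - 1) : MvPolynomial (Fin n) K) 0 := by
    have h := (isWeightedHomogeneous_X K w i0).pow (q - 1)
    rwa [hw0, smul_zero] at h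
  -- the element `m0`
  obtain ⟨m0, hm0, hm0n⟩ : ∃ m0 : MvPolynomial (Fin n) K, IsWeightedHomogeneous w m0 e ∧
      ∀ β : MvPolynomial (Fin n) K, IsWeightedHomogeneous w β e →
        m0 - X i0 ^ (q - 1) * β ∉ I := by
    by_contra hcon
    push Not at hcon
    have key : ∀ r : ℕ, ∃ g : MvPolynomial (Fin n) K, IsWeightedHomogeneous w g e ∧
        g0 - X i0 ^ ((q - 1) * r) * g ∈ I := by
      intro r
      induction r with
      | zero =>
        refine ⟨g0, hg0, ?_⟩
        rw [mul_zero, pow_zero, one_mul, sub_self]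
        exact I.zero_mem
      | succ r ih =>
        obtain ⟨g, hg, hgI⟩ := ih
        obtain ⟨β, hβ, hβI⟩ := hcon g hg
        refine ⟨β, hβ, ?_⟩
        have h1 := I.add_mem hgI (I.mul_mem_left (X i0 ^ ((q - 1) * r)) hβI)
        have h2 : g0 - X i0 ^ ((q - 1) * r) * g + X i0 ^ ((q - 1) * r) *
            (g - X i0 ^ (q - 1) * β) = g0 - X i0 ^ ((q - 1) * (r + 1)) * β := by
          rw [mul_add (q - 1) r 1, mul_one, pow_add]
          ring
        rwa [h2] at h1
    obtain ⟨g, _, hgI⟩ := key q
    have h1 : q ≤ (q - 1) * q := Nat.le_mul_of_pos_left q (by omega)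
    have h2 := I.mul_mem_right g (pow_mem_of_le hq h1)
    have h3 := I.add_mem hgI h2
    rw [sub_add_cancel] at h3
    exact hg0I h3
  -- the map
  let ψ : MvPolynomial (Fin n) K →ₗ[K] MvPolynomial (Fin n) K ⧸ I :=
    ∑ j ∈ Finset.range q, LinearMap.toSpanSingleton K _
      (Ideal.Quotient.mk I (X i0 ^ j * m0)) ∘ₗ lcoeff K (Finsupp.single i0 (q + j))
  have hψ : ∀ f, ψ f = ∑ j ∈ Finset.range q, coeff (Finsupp.single i0 (q + j)) f •
      Ideal.Quotient.mk I (X i0 ^ j * m0) := by
    intro f
    show (∑ j ∈ Finset.range q, LinearMap.toSpanSingleton K _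
      (Ideal.Quotient.mk I (X i0 ^ j * m0)) ∘ₗ lcoeff K (Finsupp.single i0 (q + j))) f = _
    rw [LinearMap.sum_apply]
    rfl
  have hX : ∀ a f, f ∈ I → ψ (X a * f) = Ideal.Quotient.mk I (X a) * ψ f := by
    intro a f hf
    by_cases ha : a = i0
    · subst ha
      rw [hψ, hψ, Finset.mul_sum]
      obtain ⟨F, hF⟩ : ∃ F : ℕ → MvPolynomial (Fin n) K ⧸ I, ∀ j, F j =
        coeff (Finsupp.single a (q + j - 1)) f • Ideal.Quotient.mk I (X a ^ j * m0) :=
        ⟨_, fun _ => rfl⟩
      have h1 : ∀ j, coeff (Finsupp.single a (q + j)) (X a * f) •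
          Ideal.Quotient.mk I (X a ^ j * m0) = F j := by
        intro j
        rw [hF, coeff_X_mul']
        have h2 : a ∈ (Finsupp.single a (q + j)).support := by
          rw [Finsupp.mem_support_iff, Finsupp.single_eq_same]
          omega
        rw [if_pos h2, ← Finsupp.single_tsub]
      have h2 : ∀ j, Ideal.Quotient.mk I (X a) * coeff (Finsupp.single a (q + j)) f •
          Ideal.Quotient.mk I (X a ^ j * m0) = F (j + 1) := by
        intro j
        rw [hF, mul_smul_comm, ← map_mul, ← mul_assoc, ← pow_succ']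
        rfl
      rw [Finset.sum_congr rfl fun j _ => h1 j, Finset.sum_congr rfl fun j _ => h2 j]
      have h3 : F 0 = 0 := by
        rw [hF, Nat.add_zero, low_coeff hw0 hw hI hq hqm hf (q - 1) (by omega), zero_smul]
      have h4 : F q = 0 := by
        rw [hF, Ideal.Quotient.eq_zero_iff_mem.2 (I.mul_mem_right m0 hq), smul_zero]
      have h5 := Finset.sum_range_succ F q
      have h6 := Finset.sum_range_succ' F q
      rw [h4, add_zero] at h5
      rw [h3, add_zero] at h6
      rw [← h5, h6]
    · have h1 : ψ (X a * f) = 0 := by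
        rw [hψ]
        refine Finset.sum_eq_zero fun j _ => ?_
        rw [coeff_X_mul', if_neg, zero_smul]
        intro h
        have h2 := Finsupp.support_single_subset h
        rw [Finset.mem_singleton] at h2
        exact ha h2
      rw [h1, hψ, Finset.mul_sum]
      symm
      refine Finset.sum_eq_zero fun j _ => ?_
      rw [mul_smul_comm, ← map_mul]
      have h2 : X a * (X i0 ^ j * m0) ∈ I := by
        have h3 : IsWeightedHomogeneous w (X a * (X i0 ^ j * m0) : MvPolynomial (Fin n) K)
            (w a + (j • w i0 + e)) :=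
          (isWeightedHomogeneous_X K w a).mul
            (((isWeightedHomogeneous_X K w i0).pow j).mul hm0)
        refine hemax _ ?_ _ h3
        have := hw a ha
        rw [hw0, smul_zero]
        omega
      rw [Ideal.Quotient.eq_zero_iff_mem.2 h2, smul_zero]
  have hlin : ∀ p g, g ∈ I → ψ (p * g) = Ideal.Quotient.mk I p * ψ g := by
    intro p
    induction p using MvPolynomial.induction_on with
    | C c =>
      intro g hg
      rw [← MvPolynomial.smul_eq_C_mul, map_smul]
      obtain ⟨r, hr⟩ := Ideal.Quotient.mk_surjective (ψ g)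
      rw [← hr, ← map_mul, ← MvPolynomial.smul_eq_C_mul]
      rfl
    | add p q hp hq =>
      intro g hg
      rw [add_mul, map_add, hp g hg, hq g hg, map_add, add_mul]
    | mul_X p a hp =>
      intro g hg
      rw [mul_assoc, hp _ (I.mul_mem_left _ hg), hX a g hg, map_mul, mul_assoc]
  let φ : I →ₗ[MvPolynomial (Fin n) K] (MvPolynomial (Fin n) K ⧸ I) :=
    { toFun := fun f => ψ f
      map_add' := fun f g => map_add ψ _ _
      map_smul' := fun g f => by
        show ψ (g * (f : MvPolynomial (Fin n) K)) = g • ψ f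
        rw [hlin g f f.2]
        rfl }
  refine ⟨φ, ?_⟩
  rintro ⟨α, hα⟩
  choose β hβ using fun b => Ideal.Quotient.mk_surjective (α b)
  have h1 : ψ (X i0 ^ q) = ∑ i, Ideal.Quotient.mk I (pderiv i (X i0 ^ q)) * α i :=
    hα ⟨X i0 ^ q, hq⟩
  have h2 : ψ (X i0 ^ q) = Ideal.Quotient.mk I m0 := by
    rw [hψ, Finset.sum_eq_single_of_mem 0 (Finset.mem_range.2 (by omega))]
    · rw [Nat.add_zero, X_pow_eq_monomial, coeff_monomial, if_pos rfl, one_smul, pow_zero, one_mul]
    · intro j _ hj
      rw [X_pow_eq_monomial, coeff_monomial, if_neg, zero_smul]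
      intro h
      have := congrArg (fun d : Fin n →₀ ℕ => d i0) h
      simp only [Finsupp.single_eq_same] at this
      omega
  have h3 : ∑ i, Ideal.Quotient.mk I (pderiv i (X i0 ^ q : MvPolynomial (Fin n) K)) * α i =
      Ideal.Quotient.mk I (X i0 ^ (q - 1) * ((q : MvPolynomial (Fin n) K) * β i0)) := by
    rw [Finset.sum_eq_single i0]
    · rw [pderiv_pow, pderiv_X_self, ← hβ i0, ← map_mul]
      congr 1
      ring
    · intro i _ hi
      rw [pderiv_pow, pderiv_X_of_ne (fun h => hi h.symm), mul_zero, map_zero, zero_mul]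
    · intro h
      exact absurd (Finset.mem_univ i0) h
  rw [h2, h3, Ideal.Quotient.eq] at h1
  have h4 := hI _ h1 e
  rw [map_sub, weightedHomogeneousComponent_eq_self hm0, wcomp_mul hX0 rfl] at h4
  exact hm0n _ (weightedHomogeneousComponent_isWeightedHomogeneous e _) h4

end Pool.Agent.H12.Rig
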