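import Mathlib
import Pool.Agent.H12.Rig.Short
import Pool.Agent.H12.Rig.Torus

/-!
# Rigid local algebras: counting maps in degrees `0` and `-1` (helper12)
-/

set_option autoImplicit false

namespace Pool.Agent.H12.Rig

open Module MvPolynomial

variable {K : Type*} [Field K] {n : ℕ} {I : Ideal (MvPolynomial (Fin n) K)}

/-- the component of degree `k` of a polynomial -/
noncomputable def sf (k : ℕ) (f : MvPolynomial (Fin n) K) : S K n k :=
  ⟨homogeneousComponent k f, homogeneousComponent_mem k f⟩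

/-- the component of degree `k` of an element of the ideal -/
noncomputable def xf (hI : ∀ k, ∀ f ∈ I, homogeneousComponent k f ∈ I) (k : ℕ) (f : I) : Ik I k :=
  ⟨sf k (f : MvPolynomial (Fin n) K), hI k f f.2⟩

theorem sf_self (k : ℕ) (f : S K n k) : sf k (f : MvPolynomial (Fin n) K) = f := by
  ext1
  exact comp_self f.2

theorem sf_ne {j k : ℕ} (h : k ≠ j) {f : MvPolynomial (Fin n) K} (hf : f ∈ S K n j) :
    sf k f = 0 := by
  ext1
  show homogeneousComponent k f = 0
  rw [comp_of_mem hf, if_neg h]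

theorem io_form (k : ℕ) (v : V I k) : ∃ g ∈ S K n k, io I k v = Ideal.Quotient.mk I g := by
  obtain ⟨f, rfl⟩ := (Ik I k).mkQ_surjective v
  exact ⟨f, f.2, rfl⟩

theorem X_io {t : ℕ} (hhigh : Ik I (t + 1) = ⊤) (a : Fin n) (v : V I t) :
    Ideal.Quotient.mk I (X a) * io I t v = 0 := by
  rw [← io_xx]
  have h : xx I a t v = 0 := by
    obtain ⟨f, hf⟩ := (Ik I (t + 1)).mkQ_surjective (xx I a t v)
    rw [← hf, Submodule.mkQ_apply, Submodule.Quotient.mk_eq_zero, hhigh]
    exact Submodule.mem_top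
  rw [h, map_zero]

theorem low_comp (hI : ∀ k, ∀ f ∈ I, homogeneousComponent k f ∈ I) {t : ℕ}
    (hlow : Ik I t = ⊥) (f : MvPolynomial (Fin n) K) (hf : f ∈ I) (a : Fin n) :
    homogeneousComponent (t + 1) (X a * f) = 0 := by
  rw [mul_comm (X a) f, comp_mul_form (j := 1) (isHomogeneous_X K a)]
  have h1 : sf t f ∈ Ik I t := hI t f hf
  rw [hlow, Submodule.mem_bot] at h1
  have h2 : homogeneousComponent t f = 0 := congrArg Subtype.val h1
  rw [h2, zero_mul]

theorem finrank_hom {A B : Type*} [AddCommGroup A] [Module K A] [FiniteDimensional K A]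
    [AddCommGroup B] [Module K B] [FiniteDimensional K B] :
    finrank K (A →ₗ[K] B) = finrank K A * finrank K B := Module.finrank_linearMap K K A B

theorem finrank_pi_hom {A B : Type*} [AddCommGroup A] [Module K A] [FiniteDimensional K A]
    [AddCommGroup B] [Module K B] [FiniteDimensional K B] :
    finrank K (Fin n → (A →ₗ[K] B)) = n * (finrank K A * finrank K B) := by
  rw [Module.finrank_pi_fintype, Finset.sum_const, Finset.card_univ, Fintype.card_fin,
    smul_eq_mul, finrank_hom]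

/-- maps of degree `0` -/
theorem count0 (hn : 0 < n) (hI : ∀ k, ∀ f ∈ I, homogeneousComponent k f ∈ I) (t : ℕ)
    (hI0 : Ik I 0 = ⊥) (hlow : Ik I t = ⊥) (hhigh : Ik I (t + 2) = ⊤)
    (hT : ∀ φ : I →ₗ[MvPolynomial (Fin n) K] (MvPolynomial (Fin n) K ⧸ I), DerOf I φ) :
    finrank K (Ik I (t + 1)) * hf I (t + 1) + 1 ≤ n * n := by
  let Φ : (Ik I (t + 1) →ₗ[K] V I (t + 1)) →ₗ[K] (I → MvPolynomial (Fin n) K ⧸ I) :=
    LinearMap.pi fun f => io I (t + 1) ∘ₗ LinearMap.applyₗ (xf hI (t + 1) f)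
  have hΦ : ∀ γ f, Φ γ f = io I (t + 1) (γ (xf hI (t + 1) f)) := fun γ f => rfl
  have hinj : Function.Injective Φ := by
    intro γ γ' h
    refine LinearMap.ext fun x => ?_
    have h1 := congrFun h ⟨(x : S K n (t + 1)), x.2⟩
    rw [hΦ, hΦ] at h1
    have h2 := io_inj I (t + 1) h1
    have h3 : xf hI (t + 1) ⟨((x : S K n (t + 1)) : MvPolynomial (Fin n) K), x.2⟩ = x := by
      ext1
      exact sf_self (t + 1) (x : S K n (t + 1))
    rwa [h3] at h2
  have hmem : ∀ γ, Φ γ ∈ LinearMap.range (D0 I) := by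
    intro γ
    obtain ⟨γ', hγ'⟩ := LinearMap.exists_extend (io I (t + 1) ∘ₗ γ)
    have hγ2 : ∀ x : Ik I (t + 1), γ' x = io I (t + 1) (γ x) := fun x =>
      LinearMap.congr_fun hγ' x
    obtain ⟨φ, hφ⟩ := constr hI (t + 1) (low_comp hI hlow) γ' 0
      (fun a f hf => by
        have h1 := hγ2 ⟨f, hf⟩
        have h2 : γ' f = io I (t + 1) (γ ⟨f, hf⟩) := h1
        rw [h2, X_io hhigh, LinearMap.zero_apply])
      (fun a g => by rw [LinearMap.zero_apply, mul_zero])
    have hφ2 : ∀ f : I, φ f = Φ γ f := by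
      intro f
      rw [hφ, LinearMap.zero_apply, add_zero, hΦ]
      exact hγ2 (xf hI (t + 1) f)
    obtain ⟨c, hc⟩ := der_lin hI hI0 (φ := φ) (fun k f hfk => by
      rw [hφ2, hΦ]
      by_cases hk : k = t + 1
      · subst hk
        exact io_form _ _
      · refine ⟨0, Submodule.zero_mem _, ?_⟩
        have h1 : xf hI (t + 1) f = 0 := by
          ext1
          exact sf_ne (fun h => hk h.symm) hfk
        rw [h1, map_zero, map_zero, map_zero]) (hT φ)
    refine ⟨c, ?_⟩
    funext f
    rw [D0_apply, ← hc f, hφ2]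
  have h2 : Function.Injective (Φ.codRestrict _ hmem) := fun w w' hw =>
    hinj (congrArg Subtype.val hw)
  have h3 := LinearMap.finrank_le_finrank_of_injective h2
  have h5 : finrank K (Ik I (t + 1) →ₗ[K] V I (t + 1)) =
      finrank K (Ik I (t + 1)) * finrank K (V I (t + 1)) :=
    finrank_hom (A := Ik I (t + 1)) (B := V I (t + 1))
  have h4 := D0_euler (I := I) hn hI
  unfold hf
  omega

/-- the conditions on a map of degree `-1` -/
noncomputable def Tm (I : Ideal (MvPolynomial (Fin n) K)) (t : ℕ) :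
    ((Ik I (t + 1) →ₗ[K] V I t) × (S K n (t + 2) →ₗ[K] V I (t + 1))) →ₗ[K]
      (Fin n → (Ik I (t + 1) →ₗ[K] V I (t + 1))) where
  toFun p := fun a => xx I a t ∘ₗ p.1 - p.2 ∘ₗ mulX a (t + 1) ∘ₗ (Ik I (t + 1)).subtype
  map_add' p q := by
    funext a
    refine LinearMap.ext fun x => ?_
    simp only [Prod.fst_add, Prod.snd_add, Pi.add_apply, LinearMap.sub_apply, LinearMap.comp_apply,
      LinearMap.add_apply, map_add]
    abel
  map_smul' c p := by
    funext a
    refine LinearMap.ext fun x => ?_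
    simp only [Prod.smul_fst, Prod.smul_snd, Pi.smul_apply, LinearMap.sub_apply,
      LinearMap.comp_apply, LinearMap.smul_apply, map_smul, RingHom.id_apply, smul_sub]

theorem Tm_apply (t : ℕ) (p : (Ik I (t + 1) →ₗ[K] V I t) × (S K n (t + 2) →ₗ[K] V I (t + 1)))
    (a : Fin n) (x : Ik I (t + 1)) :
    Tm I t p a x = xx I a t (p.1 x) - p.2 (mulX a (t + 1) x) := rfl

/-- maps of degree `-1` -/
theorem count1 (hI : ∀ k, ∀ f ∈ I, homogeneousComponent k f ∈ I) (t : ℕ)
    (hlow : Ik I t = ⊥) (hhigh : Ik I (t + 2) = ⊤)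
    (hT : ∀ φ : I →ₗ[MvPolynomial (Fin n) K] (MvPolynomial (Fin n) K ⧸ I), DerOf I φ) :
    finrank K (Ik I (t + 1)) * hf I t + finrank K (S K n (t + 2)) * hf I (t + 1) ≤
      n + n * (finrank K (Ik I (t + 1)) * hf I (t + 1)) := by
  let Φ : LinearMap.ker (Tm I t) →ₗ[K] (I → MvPolynomial (Fin n) K ⧸ I) :=
    (LinearMap.pi fun f => io I t ∘ₗ LinearMap.applyₗ (xf hI (t + 1) f) ∘ₗ LinearMap.fst K _ _ +
      io I (t + 1) ∘ₗ LinearMap.applyₗ (sf (t + 2) (f : MvPolynomial (Fin n) K)) ∘ₗ
        LinearMap.snd K _ _) ∘ₗ (LinearMap.ker (Tm I t)).subtype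
  have hΦ : ∀ (p : LinearMap.ker (Tm I t)) (f : I), Φ p f = io I t (p.1.1 (xf hI (t + 1) f)) +
      io I (t + 1) (p.1.2 (sf (t + 2) (f : MvPolynomial (Fin n) K))) := fun p f => rfl
  have hker : ∀ (p : LinearMap.ker (Tm I t)) (a : Fin n) (x : Ik I (t + 1)),
      xx I a t (p.1.1 x) = p.1.2 (mulX a (t + 1) x) := by
    intro p a x
    have h1 := congrFun (LinearMap.mem_ker.1 p.2) a
    have h2 := LinearMap.congr_fun h1 x
    rw [Tm_apply] at h2
    exact sub_eq_zero.1 h2
  have hinj : Function.Injective Φ := by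
    intro p p' hp
    have h1 : p.1.1 = p'.1.1 := by
      refine LinearMap.ext fun x => ?_
      have h2 := congrFun hp ⟨(x : S K n (t + 1)), x.2⟩
      rw [hΦ, hΦ] at h2
      have h3 : xf hI (t + 1) ⟨((x : S K n (t + 1)) : MvPolynomial (Fin n) K), x.2⟩ = x := by
        ext1
        exact sf_self (t + 1) (x : S K n (t + 1))
      have h4 : sf (t + 2) ((x : S K n (t + 1)) : MvPolynomial (Fin n) K) = 0 :=
        sf_ne (by omega) (x : S K n (t + 1)).2
      rw [h3] at h2
      have h6 : io I t (p.1.1 x) + io I (t + 1) (p.1.2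
          (sf (t + 2) ((x : S K n (t + 1)) : MvPolynomial (Fin n) K))) =
          io I t (p'.1.1 x) + io I (t + 1) (p'.1.2
          (sf (t + 2) ((x : S K n (t + 1)) : MvPolynomial (Fin n) K))) := h2
      rw [h4, map_zero, map_zero, map_zero, map_zero, add_zero, add_zero] at h6
      exact io_inj I t h6
    have h2 : p.1.2 = p'.1.2 := by
      refine LinearMap.ext fun g => ?_
      have hg : (g : MvPolynomial (Fin n) K) ∈ I := by
        have : g ∈ Ik I (t + 2) := by rw [hhigh]; exact Submodule.mem_top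
        exact this
      have h3 := congrFun hp ⟨(g : MvPolynomial (Fin n) K), hg⟩
      rw [hΦ, hΦ, h1] at h3
      have h4 := add_left_cancel h3
      have h5 : io I (t + 1) (p.1.2 (sf (t + 2) (g : MvPolynomial (Fin n) K))) =
        io I (t + 1) (p'.1.2 (sf (t + 2) (g : MvPolynomial (Fin n) K))) := h4
      rw [sf_self] at h5
      exact io_inj I (t + 1) h5
    ext1
    exact Prod.ext h1 h2
  have h1 := count_neg (I := I) (W := LinearMap.ker (Tm I t)) Φ hinj
      (fun (p : LinearMap.ker (Tm I t)) => by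
    obtain ⟨α, hα⟩ := LinearMap.exists_extend (io I t ∘ₗ p.1.1)
    have hα2 : ∀ x : Ik I (t + 1), α x = io I t (p.1.1 x) := fun x => LinearMap.congr_fun hα x
    obtain ⟨φ, hφ⟩ := constr hI (t + 1) (low_comp hI hlow) α (io I (t + 1) ∘ₗ p.1.2)
      (fun a f hf => by
        have h2 : α f = io I t (p.1.1 ⟨f, hf⟩) := hα2 ⟨f, hf⟩
        rw [h2, ← io_xx, hker p a ⟨f, hf⟩]
        rfl)
      (fun a g => by
        rw [LinearMap.comp_apply, X_io hhigh])
    have hφ2 : ∀ f : I, φ f = Φ p f := by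
      intro f
      rw [hφ, hΦ]
      congr 1
      exact hα2 (xf hI (t + 1) f)
    obtain ⟨c, hc⟩ := der_const hI (φ := φ) (fun k f hfk => by
      rw [hφ2, hΦ]
      by_cases hk : k = t + 1
      · subst hk
        refine ⟨fun h => by omega, fun j hj => ?_⟩
        have hj' : j = t := by omega
        subst hj'
        have e1 : sf (j + 2) (f : MvPolynomial (Fin n) K) = 0 := sf_ne (by omega) hfk
        rw [e1, map_zero, map_zero, add_zero]
        exact io_form _ _
      · have e1 : xf hI (t + 1) f = 0 := by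
          ext1
          exact sf_ne (fun h => hk h.symm) hfk
        rw [e1, map_zero, map_zero, zero_add]
        by_cases hk2 : k = t + 2
        · subst hk2
          refine ⟨fun h => by omega, fun j hj => ?_⟩
          have hj' : j = t + 1 := by omega
          subst hj'
          exact io_form _ _
        · have e2 : sf (t + 2) (f : MvPolynomial (Fin n) K) = 0 :=
            sf_ne (fun h => hk2 h.symm) hfk
          rw [e2, map_zero, map_zero]
          exact ⟨fun _ => rfl, fun j _ => ⟨0, isHomogeneous_zero _ _ _, (map_zero _).symm⟩⟩)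
      (hT φ)
    exact ⟨c, fun f => by rw [← hc f, hφ2]⟩)
  have h2 := LinearMap.finrank_range_add_finrank_ker (Tm I t)
  have h3 : finrank K (LinearMap.range (Tm I t)) ≤
      finrank K (Fin n → (Ik I (t + 1) →ₗ[K] V I (t + 1))) := Submodule.finrank_le _
  have f1 : finrank K (Ik I (t + 1) →ₗ[K] V I (t + 1)) =
      finrank K (Ik I (t + 1)) * finrank K (V I (t + 1)) :=
    finrank_hom (A := Ik I (t + 1)) (B := V I (t + 1))
  have f2 : finrank K (Ik I (t + 1) →ₗ[K] V I t) =
      finrank K (Ik I (t + 1)) * finrank K (V I t) :=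
    finrank_hom (A := Ik I (t + 1)) (B := V I t)
  have f3 : finrank K (S K n (t + 2) →ₗ[K] V I (t + 1)) =
      finrank K (S K n (t + 2)) * finrank K (V I (t + 1)) :=
    finrank_hom (A := S K n (t + 2)) (B := V I (t + 1))
  have f4 : finrank K (Fin n → (Ik I (t + 1) →ₗ[K] V I (t + 1))) =
      n * (finrank K (Ik I (t + 1)) * finrank K (V I (t + 1))) :=
    finrank_pi_hom (A := Ik I (t + 1)) (B := V I (t + 1))
  have f5 : finrank K ((Ik I (t + 1) →ₗ[K] V I t) × (S K n (t + 2) →ₗ[K] V I (t + 1))) =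
      finrank K (Ik I (t + 1) →ₗ[K] V I t) + finrank K (S K n (t + 2) →ₗ[K] V I (t + 1)) :=
    Module.finrank_prod
  rw [f4] at h3
  rw [f5, f2, f3] at h2
  unfold hf
  omega

end Pool.Agent.H12.Rig
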