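import Mathlib
import Pool.Agent.H12.Rig.Short2

/-!
# Rigid local algebras: ideals between consecutive powers are never rigid (helper12)
-/

set_option autoImplicit false

namespace Pool.Agent.H12.Rig

open Module MvPolynomial

/-- number of monomials of degree `k` -/
def nm (n k : ℕ) : ℕ := (n + k - 1).choose k

theorem nm_mono {n : ℕ} (hn : 1 ≤ n) : Monotone (nm n) := by
  apply monotone_nat_of_le_succ
  intro k
  unfold nm
  have e : n + (k + 1) - 1 = (n + k - 1) + 1 := by omega
  rw [e, Nat.choose_succ_succ]
  exact Nat.le_add_right _ _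

theorem nm_one {n : ℕ} : nm n 1 = n := by
  unfold nm
  rw [Nat.choose_one_right]
  omega

theorem nm_two {n : ℕ} : nm n 2 * 2 = (n + 1) * n := by
  unfold nm
  have e : n + 2 - 1 = n + 1 := by omega
  have h := Nat.add_one_mul_choose_eq n 1
  rw [Nat.choose_one_right] at h
  rw [e]
  exact h.symm

theorem nm_three {n : ℕ} : nm n 3 * 3 = (n + 2) * nm n 2 := by
  unfold nm
  have e : n + 3 - 1 = n + 2 := by omega
  have e2 : n + 2 - 1 = n + 1 := by omega
  have h := Nat.add_one_mul_choose_eq (n + 1) 2
  rw [e, e2]
  exact h.symm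

theorem num_final (n a b c d r : ℕ) (hn : 2 ≤ n) (ha : n ≤ a) (hb : (n + 1) * n ≤ b * 2)
    (hc : 2 * n ≤ c) (hdr : r + d = b) (h0 : d * r + 1 ≤ n * n)
    (h1 : d * a + c * r ≤ n + n * (d * r))
    (h3 : n = 3 → (b = 6 ∧ a = 3 ∧ c = 10) ∨ 10 ≤ b) : False := by
  have hb3 : 3 ≤ b := by nlinarith
  have hda : d * n ≤ d * a := Nat.mul_le_mul_left _ ha
  have hcr : 2 * n * r ≤ c * r := Nat.mul_le_mul_right _ hc
  rcases Nat.lt_or_ge r 2 with hr | hr
  · interval_cases r
    · have : d = b := by omega
      subst this
      nlinarith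
    · nlinarith
  rcases Nat.lt_or_ge d 2 with hd | hd
  · interval_cases d
    · nlinarith
    · nlinarith
  obtain ⟨d', rfl⟩ := Nat.exists_eq_add_of_le hd
  obtain ⟨r', rfl⟩ := Nat.exists_eq_add_of_le hr
  have h4 : 2 * b ≤ (2 + d') * (2 + r') + 4 := by
    rw [← hdr]
    nlinarith [Nat.zero_le (d' * r')]
  rcases Nat.lt_or_ge n 4 with hn4 | hn4
  · interval_cases n
    · nlinarith [Nat.zero_le (d' * r')]
    · rcases h3 rfl with ⟨rfl, rfl, rfl⟩ | h5
      · have hd' : d' ≤ 2 := by omega
        have hr' : r' = 2 - d' := by omega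
        subst hr'
        interval_cases d' <;> omega
      · omega
  · nlinarith

variable {K : Type*} [Field K] {n : ℕ}

theorem short (hn : 1 ≤ n) (s : ℕ) (hs : 2 ≤ s) (I : Ideal (MvPolynomial (Fin n) K))
    (h1 : Ideal.span (Set.range (X : Fin n → MvPolynomial (Fin n) K)) ^ (s + 1) ≤ I)
    (h2 : I ≤ Ideal.span (Set.range (X : Fin n → MvPolynomial (Fin n) K)) ^ s) :
    ∃ φ : I →ₗ[MvPolynomial (Fin n) K] (MvPolynomial (Fin n) K ⧸ I), ¬ DerOf I φ := by
  -- the case of one variable
  rcases Nat.lt_or_ge n 2 with hn2 | hn2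
  · have hn1 : n = 1 := by omega
    subst hn1
    refine torus (w := fun _ => 0) (i0 := 0) rfl (fun j hj => absurd (Subsingleton.elim j 0) hj)
      ?_ ⟨s + 1, h1⟩ ?_
    · intro f hf k
      have h3 : weightedHomogeneousComponent (fun _ : Fin 1 => (0 : ℕ)) k f =
          if k = 0 then f else 0 := by
        ext d
        rw [coeff_weightedHomogeneousComponent]
        have h4 : Finsupp.weight (fun _ : Fin 1 => (0 : ℕ)) d = 0 := by
          simp [Finsupp.weight_apply]
        rw [h4]
        by_cases hk : k = 0
        · rw [if_pos hk, if_pos hk.symm]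
        · rw [if_neg hk, if_neg (fun h => hk h.symm), coeff_zero]
      rw [h3]
      split_ifs
      · exact hf
      · exact I.zero_mem
    · intro hx
      have h3 := form_pow_zero (k := 1) (by omega) (isHomogeneous_X K 0) (h2 hx)
      exact X_ne_zero _ h3
  by_contra hT
  push Not at hT
  -- graded pieces
  have hI : ∀ k, ∀ f ∈ I, homogeneousComponent k f ∈ I := by
    intro k f hf
    rcases Nat.lt_or_ge s k with hk | hk
    · exact h1 (form_mem_pow (by omega) (homogeneousComponent_mem k f))
    · have h3 : ∀ j, j < s → homogeneousComponent j f = 0 := by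
        intro j hj
        ext x
        rw [coeff_homogeneousComponent, coeff_zero]
        split_ifs with hx
        · by_contra hcon
          have h4 := (mem_pow_idealOfVars_iff (σ := Fin n) (R := K) s f).1 (h2 hf) x
            (MvPolynomial.mem_support_iff.2 hcon)
          omega
        · rfl
      rcases Nat.lt_or_ge k s with hk2 | hk2
      · rw [h3 k hk2]
        exact I.zero_mem
      · have hks : k = s := by omega
        subst hks
        have h4 : homogeneousComponent k f =
            f - ∑ j ∈ (Finset.range (f.totalDegree + 1)).erase k, homogeneousComponent j f := by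
          by_cases hk3 : k ∈ Finset.range (f.totalDegree + 1)
          · rw [eq_sub_iff_add_eq, Finset.add_sum_erase (Finset.range (f.totalDegree + 1))
              (fun j => homogeneousComponent j f) hk3]
            exact sum_homogeneousComponent f
          · rw [Finset.erase_eq_of_notMem hk3, sum_homogeneousComponent, sub_self]
            rw [Finset.mem_range, not_lt] at hk3
            exact homogeneousComponent_eq_zero k f (by omega)
        rw [h4]
        refine I.sub_mem hf (I.sum_mem fun j hj => ?_)
        rw [Finset.mem_erase] at hj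
        rcases Nat.lt_or_ge j k with hjk | hjk
        · rw [h3 j hjk]
          exact I.zero_mem
        · exact h1 (form_mem_pow (by omega) (homogeneousComponent_mem j f))
  have hlow : ∀ k, k < s → Ik I k = ⊥ := by
    intro k hk
    rw [eq_bot_iff]
    intro f hf
    rw [Submodule.mem_bot]
    ext1
    exact form_pow_zero hk f.2 (h2 hf)
  have hhigh : ∀ k, s < k → Ik I k = ⊤ := by
    intro k hk
    rw [eq_top_iff]
    intro f _
    exact h1 (form_mem_pow (by omega) f.2)
  obtain ⟨t, rfl⟩ : ∃ t, s = t + 1 := ⟨s - 1, by omega⟩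
  have c0 := count0 (by omega) hI t (hlow 0 (by omega)) (hlow t (by omega))
    (hhigh (t + 2) (by omega)) hT
  have c1 := count1 hI t (hlow t (by omega)) (hhigh (t + 2) (by omega)) hT
  have e0 := hf_add I t
  rw [hlow t (by omega), finrank_bot, add_zero] at e0
  have e1 := hf_add I (t + 1)
  have f0 : finrank K (S K n t) = nm n t := finrank_S t
  have f1 : finrank K (S K n (t + 1)) = nm n (t + 1) := finrank_S (t + 1)
  have f2 : finrank K (S K n (t + 2)) = nm n (t + 2) := finrank_S (t + 2)
  rw [e0, f0, f2] at c1
  rw [f1] at e1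
  have hmono := nm_mono (n := n) hn
  have g1 : nm n 1 ≤ nm n t := hmono (by omega)
  have g2 : nm n 2 ≤ nm n (t + 1) := hmono (by omega)
  have g3 : nm n 3 ≤ nm n (t + 2) := hmono (by omega)
  have k2 := nm_two (n := n)
  have k3 := nm_three (n := n)
  rw [nm_one] at g1
  refine num_final n (nm n t) (nm n (t + 1)) (nm n (t + 2)) _ _ hn2 g1 (by omega) ?_ e1 c0 c1 ?_
  · nlinarith
  · intro h3
    subst h3
    rcases Nat.lt_or_ge t 2 with ht | ht
    · have ht1 : t = 1 := by omega
      subst ht1
      left
      exact ⟨by decide, by decide, by decide⟩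
    · right
      have g4 : nm 3 3 ≤ nm 3 (t + 1) := hmono (by omega)
      have g5 : nm 3 3 = 10 := by decide
      omega

end Pool.Agent.H12.Rig
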